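import Pool.Agent.Helper15_SIQ.Lib

/-!
# MP_021b97_an, Q1: statements of the modules.  Plan with proofs: /team-store/PLAN_SIQ.md
-/

set_option autoImplicit false

open MeasureTheory Filter Topology

namespace Pool.Agent.SIQ

open Pool.Agent.SIU

/-! ## Part A: algebra -/

/-- FRM: the frame. -/
def FrmStmt : Prop :=
  (∀ z ∈ X1.U, ∀ c : C3, fl z (fE z c) = c) ∧
  (∀ z ∈ X1.U, ∀ v : E6, X1.Vert z (v - fE z (fl z v))) ∧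
  (∀ z v : E6, X1.Vert z v → fl z v = 0) ∧
  (∀ c : C3, (∀ j, c j ≠ 0) → ∀ z v : E6, fl (X1.act c z) (X1.act c v) =
    rot3 (fun j => c j / (starRingEnd ℂ) (c j)) (fl z v)) ∧
  (∀ c : C3, (∀ j, c j ≠ 0) → ∀ (z : E6) (d : C3), fE (X1.act c z) d =
    X1.act c (fE z (rot3 (fun j => (starRingEnd ℂ) (c j) / c j) d))) ∧
  (∀ (g z : E6) (d : C3), fE (qm g z) d = qm g (fE z d)) ∧
  (∀ g ∈ X1.U, ∀ z v : E6, fl (qm g z) (qm g v) = fl z v) ∧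
  (∀ m : ℕ∞, ContDiff ℝ m (fun z : E6 => (fE z).restrictScalars ℝ)) ∧
  (∀ m : ℕ∞, ContDiffOn ℝ m (fun z : E6 => (fl z).restrictScalars ℝ) X1.U) ∧
  (∀ x d : C3, fl (X1.σ x) (inc1 d) = fun i => - d i / ((1 + ‖x i‖ ^ 2 : ℝ) : ℂ))

/-- CPT: forms and their components. -/
def CptStmt : Prop :=
  (∀ (k : ℕ) (β : E6 → Alt 6 k), X1.BasicOn X1.U β → Eqv (cmp β) ∧
    ∀ z ∈ X1.U, β z = (cmp β z).compContinuousLinearMap ((fl z).restrictScalars ℝ)) ∧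
  (∀ (k : ℕ) (Ψ : E6 → Alt 3 k), Eqv Ψ → X1.BasicOn X1.U (ofc Ψ) ∧
    ∀ z ∈ X1.U, cmp (ofc Ψ) z = Ψ z) ∧
  (∀ (k : ℕ) (m : ℕ∞) (β : E6 → Alt 6 k), ContDiffOn ℝ m β X1.U → ContDiffOn ℝ m (cmp β) X1.U) ∧
  (∀ (k : ℕ) (m : ℕ∞) (Ψ : E6 → Alt 3 k), ContDiffOn ℝ m Ψ X1.U → ContDiffOn ℝ m (ofc Ψ) X1.U) ∧
  (∀ (k : ℕ) (g : E6) (β : E6 → Alt 6 k) (z : E6), cmp (gs g β) z = cmp β (qm g z)) ∧
  (∀ Q : Set E6, IsCompact Q → Q ⊆ X1.U → ∀ k : ℕ, ∃ C : ℝ, 0 ≤ C ∧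
    ∀ β : E6 → Alt 6 k, X1.BasicOn X1.U β → ∀ z ∈ Q, ‖β z‖ ≤ C * ‖cmp β (nz z)‖ ∧
      ‖cmp β z‖ ≤ C * ‖β z‖) ∧
  (∀ (k : ℕ) (β : E6 → Alt 6 k), X1.BasicOn X1.U β → ∀ z ∈ X1.U, cmp β z = cmp β (nz z))

/-- QUA: quaternion algebra. -/
def QuaStmt : Prop :=
  (∀ (g z : E6) (i : Fin 3), nn (qm g z) i = nn g i * nn z i) ∧
  (∀ g z : E6, qm g z ∈ X1.U ↔ g ∈ X1.U ∧ z ∈ X1.U) ∧
  (∀ g h z : E6, qm g (qm h z) = qm (qm g h) z) ∧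
  (∀ (c : C3) (g z : E6), X1.act c (qm g z) = qm g (X1.act c z)) ∧
  (∀ z : E6, qm one6 z = z ∧ qm z one6 = z) ∧
  (∀ g z : E6, qm (cq g) (qm g z) = X1.act (fun i => (nn g i : ℂ)) z) ∧
  (∀ g z : E6, qm g (qm (cq g) z) = X1.act (fun i => (nn g i : ℂ)) z) ∧
  (∀ g h : E6, cq (qm g h) = qm (cq h) (cq g)) ∧
  (∀ g h z : E6, qm (g + h) z = qm g z + qm h z) ∧
  (∀ (t : Fin 3 → ℝ) (g z : E6),
    qm (X1.act (fun i => (t i : ℂ)) g) z = X1.act (fun i => (t i : ℂ)) (qm g z)) ∧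
  (∀ (h w : E6) (i : Fin 3), (qm h (cq w) (lo i)).re = rip h w i) ∧
  (∀ (g z : E6) (i : Fin 3), rip (qm g z) z i = (g (lo i)).re * nn z i) ∧
  (∀ (g : E6) (i : Fin 3), nn (cq g) i = nn g i)

/-- QUM: measure preserving maps. -/
def QumStmt : Prop :=
  (∀ w ∈ M1, MeasurePreserving (fun g : E6 => qm g w)) ∧
  (∀ h ∈ M1, MeasurePreserving (fun g : E6 => qm h g)) ∧
  MeasurePreserving cq ∧
  (∀ h ∈ M1, MeasurePreserving (fun g : E6 => qm h (qm g (cq h)))) ∧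
  (∀ c : C3, (∀ j, ‖c j‖ = 1) → MeasurePreserving (fun z : E6 => X1.act c z)) ∧
  volume (X1.Uᶜ) = 0 ∧
  Integrable (fun g : E6 => Real.exp (-∑ i, nn g i))

/-- RHO: the weight. -/
def RhoStmt : Prop := ∀ δ : Fin 3 → ℝ, Ad δ →
  ContinuousOn (rho δ) X1.U ∧
  (∀ g, 0 ≤ rho δ g ∧ rho δ g ≤ Real.exp (-∑ i, nn g i)) ∧
  Integrable (rho δ) ∧ 0 < Zc δ ∧
  (∀ g, rho δ (cq g) = rho δ g) ∧
  (∀ h ∈ M1, ∀ g, rho δ (qm h (qm g (cq h))) = rho δ g) ∧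
  (∀ g, rho δ g ≠ 0 → g ∈ X1.U ∧ ∀ i, (1 - δ i) * √(nn g i) < (g (lo i)).re) ∧
  (∀ (h : E6), ∀ w ∈ M1, rho δ (qm h (cq w)) = Gk δ h w * Real.exp (-∑ i, nn h i))

/-- DUA: the forms `ι_v vol`. -/
def DuaStmt : Prop := ∀ (k l : ℕ) (h : k + l = 6),
  (∃ D : C3 [⋀^Fin k]→L[ℝ] (Alt 3 l), ∀ v, D v = iv h v) ∧
  (∀ (Λ : Alt 3 l →ₗ[ℝ] ℝ) (α : Alt 3 k), (∀ v, α v = Λ (iv h v)) →
    ∀ φ : Alt 3 l, wedge α φ (stdb 3 (k + l)) = Λ φ) ∧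
  (∀ c : C3, (∀ j, ‖c j‖ = 1) → ∀ v : Fin k → C3,
    (iv h v).compContinuousLinearMap ((rot3 c).restrictScalars ℝ) =
      iv h (fun i => rot3 (fun j => (starRingEnd ℂ) (c j)) (v i)))

/-- COM: commutativity and nondegeneracy of the pairing of constant forms, forms of top degree. -/
def ComStmt : Prop := ∀ k l : ℕ, k + l = 6 →
  (∀ (a : Alt 3 k) (b : Alt 3 l),
    wedge a b (stdb 3 (k + l)) = (-1) ^ (k * l) * wedge b a (stdb 3 (l + k))) ∧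
  (∀ a : Alt 3 k, (∀ b : Alt 3 l, wedge a b (stdb 3 (k + l)) = 0) → a = 0) ∧
  (∀ (c : C3) (ω : Alt 3 (k + l)),
    ω (fun i => rot3 c (stdb 3 (k + l) i)) = (∏ j, ‖c j‖ ^ 2) * ω (stdb 3 (k + l)))

/-- PPA: strongly positive forms `ι vol`: if `b ∧ φ ≥ 0` for all strongly positive `φ`, then `b` is
weakly positive (dimension 3). -/
def PpaStmt : Prop := ∀ p q : ℕ, p + q = 3 → ∀ b : Alt 3 (2 * p),
  (∀ φ : Alt 3 (2 * q), SPos q φ → 0 ≤ wedge b φ (stdb 3 (2 * p + 2 * q))) → WPos p b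

/-- EQV: weak and strong positivity agree in dimension 3. -/
def EqvStmt : Prop := ∀ q : ℕ, q ≤ 3 → ∀ a : Alt 3 (2 * q), WPos q a →
  (∀ u : ℂ, ‖u‖ = 1 → ∀ v, a (fun j => u • v j) = a v) → SPos q a

/-- LEI: the Leibniz rule. -/
def LeiStmt : Prop := ∀ (N k l : ℕ) (a : (Fin N → ℂ) → Alt N k) (b : (Fin N → ℂ) → Alt N l)
  (z : Fin N → ℂ), DifferentiableAt ℝ a z → DifferentiableAt ℝ b z →
  ∀ v : ℕ → (Fin N → ℂ),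
    extDeriv (fun w => wedge (a w) (b w)) z (fun i => v i) =
      wedge (extDeriv a z) (b z) (fun i => v i) +
      (-1) ^ k * wedge (a z) (extDeriv b z) (fun i => v i)

/-- RDC: `dd^c` commutes with the rotation of vectors. -/
def RdcStmt : Prop := ∀ (N k : ℕ) (φ : (Fin N → ℂ) → Alt N k) (z : Fin N → ℂ),
  ContDiffAt ℝ 2 φ z → ∀ u : ℂ, ‖u‖ = 1 →
    ddc (fun w => (φ w).compContinuousLinearMap (mulC N u)) z =
      (ddc φ z).compContinuousLinearMap (mulC N u)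

/-! ## Part B: integration on `X` -/

/-- GAU: integrals over the chart as Gaussian integrals. -/
def GauStmt : Prop := ∀ F : E6 → ℝ, ContinuousOn F X1.U →
  (∀ z ∈ X1.U, ∀ c : C3, (∀ j, c j ≠ 0) → F (X1.act c z) = F z) →
    Integrable (fun z => Real.exp (-∑ i, nn z i) * F z) ∧
    Integrable (fun x : C3 => (∏ i, (1 + ‖x i‖ ^ 2)⁻¹ ^ 2) * F (X1.σ x)) ∧
    ∫ z, Real.exp (-∑ i, nn z i) * F z =
      Real.pi ^ 3 * ∫ x : C3, (∏ i, (1 + ‖x i‖ ^ 2)⁻¹ ^ 2) * F (X1.σ x)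

/-- PRF: the pairing as a Gaussian integral. -/
def PrfStmt : Prop := ∀ k l : ℕ, k + l = 6 → ∀ (a : E6 → Alt 6 k) (b : E6 → Alt 6 l),
  ContinuousOn a X1.U → X1.BasicOn X1.U a → ContinuousOn b X1.U → X1.BasicOn X1.U b →
    Integrable (fun x => wedge (Toric.pull X1.σ a x) (Toric.pull X1.σ b x) (stdb 3 (k + l))) ∧
    Integrable (fun z => Real.exp (-∑ i, nn z i) * prw a b z) ∧
    X1.pair a b = (Real.pi ^ 3)⁻¹ * ∫ z, Real.exp (-∑ i, nn z i) * prw a b z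

/-- INV: invariance of the pairing. -/
def InvStmt : Prop := ∀ k l : ℕ, k + l = 6 → ∀ (a : E6 → Alt 6 k) (b : E6 → Alt 6 l),
  ContinuousOn a X1.U → X1.BasicOn X1.U a → ContinuousOn b X1.U → X1.BasicOn X1.U b →
    (∀ g ∈ X1.U, X1.pair (gs g a) (gs g b) = X1.pair a b) ∧
    (∀ u : ℂ, ‖u‖ = 1 → X1.pair (rotF u a) (rotF u b) = X1.pair a b) ∧
    X1.pair a b = (-1) ^ (k * l) * X1.pair b a

/-- CHT: forms with support in the chart. -/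
def ChtStmt : Prop := ∀ (l : ℕ) (γ : C3 → Alt 3 l), HasCompactSupport γ → Continuous γ →
  ContinuousOn (chf γ) X1.U ∧ X1.BasicOn X1.U (chf γ) ∧ (∀ z, z ∉ X1.U → chf γ z = 0) ∧
  (∀ x, Toric.pull X1.σ (chf γ) x = γ x) ∧
  (ContDiff ℝ ((⊤ : ℕ∞) : WithTop ℕ∞) γ → X1.Smooth (chf γ)) ∧
  (∀ z, (∀ i, z (hi i) ≠ 0) → γ (chp z) = 0 → chf γ z = 0) ∧
  (∀ (k : ℕ) (η : E6 → Alt 6 k), X1.BasicOn X1.U η → ∀ z, (∀ i, z (hi i) ≠ 0) →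
    η z = (Toric.pull X1.σ η (chp z)).compContinuousLinearMap (fderiv ℝ chp z)) ∧
  (∀ z, (∀ i, z (hi i) ≠ 0) → ∀ (u : ℂ) (v : E6), fderiv ℝ chp z (u • v) = u • fderiv ℝ chp z v)

/-- NDG: nondegeneracy of the pairing; forms of degree `> 6` vanish. -/
def NdgStmt : Prop :=
  (∀ k l : ℕ, k + l = 6 → ∀ a : E6 → Alt 6 k, ContinuousOn a X1.U → X1.BasicOn X1.U a →
    ∀ O : Set E6, IsOpen O → Sat O →
    (∀ β : X1.Form l, X1.Smooth β.1 → (∀ z, z ∉ O → β.1 z = 0) → X1.pair a β.1 = 0) →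
    ∀ z ∈ X1.U ∩ O, a z = 0) ∧
  (∀ k : ℕ, 6 < k → ∀ a : E6 → Alt 6 k, X1.BasicOn X1.U a → ∀ z ∈ X1.U, a z = 0)

/-- NDR: nondegeneracy, test forms which are invariant under rotation of vectors. -/
def NdrStmt : Prop := ∀ k l : ℕ, k + l = 6 → ∀ a : E6 → Alt 6 k, ContinuousOn a X1.U →
  X1.BasicOn X1.U a → RotInv a →
    (∀ β : X1.Form l, X1.Smooth β.1 → RotInv β.1 → X1.pair a β.1 = 0) → ∀ z ∈ X1.U, a z = 0

/-- STG: Stokes' theorem on `X`. -/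
def StgStmt : Prop := ∀ m : ℕ, m + 1 = 6 → ∀ Γ : E6 → Alt 6 m, ContDiffOn ℝ 1 Γ X1.U →
  X1.BasicOn X1.U Γ →
    ∫ x, Toric.pull X1.σ (extDeriv Γ) x (stdb 3 (m + 1)) = 0

/-- STX: integration by parts. -/
def StxStmt : Prop := ∀ k l : ℕ, k + 1 + l = 6 → ∀ (a : E6 → Alt 6 k) (b : E6 → Alt 6 l),
  ContDiffOn ℝ 1 a X1.U → X1.BasicOn X1.U a → ContDiffOn ℝ 1 b X1.U → X1.BasicOn X1.U b →
    X1.pair (extDeriv a) b + (-1) ^ k * X1.pair a (extDeriv b) = 0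

/-- DDS: symmetry of `dd^c`. -/
def DdsStmt : Prop := ∀ k l : ℕ, k + 1 + 1 + l = 6 → Even k →
  ∀ (a : E6 → Alt 6 k) (b : E6 → Alt 6 l),
  ContDiffOn ℝ 2 a X1.U → X1.BasicOn X1.U a → ContDiffOn ℝ 2 b X1.U → X1.BasicOn X1.U b →
    X1.pair (ddc a) b = X1.pair a (ddc b)

/-! ## Part C: averages -/

/-- GSF: pull-back by `qm g`. -/
def GsfStmt : Prop := ∀ g ∈ X1.U,
  (∀ (k : ℕ) (β : E6 → Alt 6 k), ContinuousOn β X1.U → ContinuousOn (gs g β) X1.U) ∧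
  (∀ (k : ℕ) (β : E6 → Alt 6 k), X1.BasicOn X1.U β → X1.BasicOn X1.U (gs g β)) ∧
  (∀ (k : ℕ) (β : E6 → Alt 6 k), X1.Smooth β → X1.Smooth (gs g β)) ∧
  (∀ (k : ℕ) (β : E6 → Alt 6 k), DifferentiableOn ℝ β X1.U → ∀ z ∈ X1.U,
    extDeriv (gs g β) z = gs g (extDeriv β) z) ∧
  (∀ (k : ℕ) (β : E6 → Alt 6 k), ContDiffOn ℝ 2 β X1.U → ∀ z ∈ X1.U,
    ddc (gs g β) z = gs g (ddc β) z) ∧
  (∀ (w : Bool) (q : ℕ) (β : E6 → Alt 6 (2 * q)) (z : E6), FPos w q (β (qm g z)) →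
    FPos w q (gs g β z)) ∧
  (∀ (k : ℕ) (u : ℂ) (β : E6 → Alt 6 k), gs g (rotF u β) = rotF u (gs g β)) ∧
  (∀ (k : ℕ) (β : E6 → Alt 6 k), RotInv β → RotInv (gs g β))

/-- KPW: powers of the Kähler form. -/
def KpwStmt : Prop := ∀ q : ℕ,
  X1.BasicOn X1.U (X1.kpow q) ∧ X1.Smooth (X1.kpow q) ∧ RotInv (X1.kpow q) ∧
  ∀ g ∈ X1.U, ∀ z ∈ X1.U, gs g (X1.kpow q) z = X1.kpow q z

/-- AVF: the average of a form. -/
def AvfStmt : Prop := ∀ δ : Fin 3 → ℝ, Ad δ → ∀ (k : ℕ) (β : E6 → Alt 6 k),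
  ContinuousOn β X1.U → X1.BasicOn X1.U β →
    (∀ z ∈ X1.U, Integrable (fun g => rho δ g • gs g β z)) ∧
    ContinuousOn (Av δ β) X1.U ∧ X1.BasicOn X1.U (Av δ β) ∧
    (∀ z ∈ X1.U, Integrable (fun g => rho δ g • cmp β (qm g z)) ∧
      cmp (Av δ β) z = (Zc δ)⁻¹ • ∫ g, rho δ g • cmp β (qm g z)) ∧
    (∀ c : ℝ, (∀ z ∈ M1, ‖cmp β z‖ ≤ c) → ∀ z ∈ X1.U, ‖cmp (Av δ β) z‖ ≤ c)

/-- SYM: the average is symmetric, averages commute. -/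
def SymStmt : Prop := ∀ δ ε : Fin 3 → ℝ, Ad δ → Ad ε →
  (∀ k l : ℕ, k + l = 6 → ∀ (a : X1.Form k) (b : X1.Form l),
    X1.pair (Av δ a.1) b.1 = X1.pair a.1 (Av δ b.1)) ∧
  (∀ (k : ℕ) (a : X1.Form k), ∀ z ∈ X1.U, Av δ (Av ε a.1) z = Av ε (Av δ a.1) z)

/-- UNI: the averages converge uniformly. -/
def UniStmt : Prop := ∀ (k : ℕ) (β : X1.Form k) (δ : ℕ → Fin 3 → ℝ), (∀ n, Ad (δ n)) →
  (∀ i, Tendsto (fun n => δ n i) atTop (𝓝 0)) → ∀ Q : Set E6, IsCompact Q → Q ⊆ X1.U →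
    ∀ ε > 0, ∀ᶠ n in atTop, ∀ z ∈ Q, ‖Av (δ n) β.1 z - β.1 z‖ ≤ ε

/-- TOP: separated neighbourhoods of disjoint closed sets. -/
def TopStmt : Prop := ∀ A F : Set E6, A ⊆ X1.U → F ⊆ X1.U → Sat A → Sat F → Disjoint A F →
  (X1.U ∩ closure A ⊆ A) → (X1.U ∩ closure F ⊆ F) →
    ∃ (OA OF : Set E6) (ε : ℝ), 0 < ε ∧ IsOpen OA ∧ IsOpen OF ∧ Sat OA ∧ Sat OF ∧
      A ⊆ OA ∧ F ⊆ OF ∧ OA ⊆ X1.U ∧ OF ⊆ X1.U ∧
      ∀ z ∈ OA, ∀ g ∈ X1.U, (∀ i, (1 - ε) * √(nn g i) < (g (lo i)).re) → qm g z ∉ OF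

/-- SUP: a current vanishes on forms which vanish near its support; the support is closed. -/
def SupStmt : Prop := ∀ (q : ℕ) (T : X1.Current q),
  Sat (X1.supp T) ∧ X1.U ∩ closure (X1.supp T) ⊆ X1.supp T ∧
  ∀ (O : Set E6), IsOpen O → Sat O → X1.supp T ⊆ O → ∀ β : X1.Form (2 * q),
    (∀ z ∈ O, β.1 z = 0) → T β = 0

/-! ## Part D: existence of the smoothing -/

/-- OMG: the superposition operator is smooth. -/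
def OmgStmt : Prop := ∀ (K : Type) [TopologicalSpace K] [CompactSpace K] (θ : C(ℝ, ℝ)),
  ContDiff ℝ ((⊤ : ℕ∞) : WithTop ℕ∞) θ →
    ContDiff ℝ ((⊤ : ℕ∞) : WithTop ℕ∞) (fun f : C(K, ℝ) => θ.comp f)

/-- SMG: the kernel is a smooth function of `h` with values in the continuous functions of `w`. -/
def SmgStmt : Prop := ∀ δ : Fin 3 → ℝ, Ad δ → ∃ GG : E6 → C(M1, ℝ),
  (∀ h ∈ X1.U, ∀ w : M1, GG h w = Gk δ h w) ∧
    ContDiffOn ℝ ((⊤ : ℕ∞) : WithTop ℕ∞) GG X1.U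

/-- EXT: extension of a current to all continuous components, invariant under the torus. -/
def ExtStmt : Prop := ∀ (q : ℕ) (T : X1.Current q), X1.IsCont T →
  ∃ Tt : C(M1, Alt 3 (2 * q)) →L[ℝ] ℝ,
    (∀ (β : X1.Form (2 * q)) (Ψ : C(M1, Alt 3 (2 * q))),
      (∀ w : M1, Ψ w = cmp β.1 w) → Tt Ψ = T β) ∧
    (∀ c : C3, (∀ j, ‖c j‖ = 1) → ∀ Ψ Ψ' : C(M1, Alt 3 (2 * q)),
      (∀ w w' : M1, (w' : E6) = X1.act c w → Ψ' w =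
        (Ψ w').compContinuousLinearMap ((rot3 fun j => c j ^ 2).restrictScalars ℝ)) →
      Tt Ψ' = Tt Ψ)

/-- INT: currents commute with averages. -/
def IntStmt : Prop := ∀ δ : Fin 3 → ℝ, Ad δ → ∀ (q : ℕ) (T : X1.Current q), X1.IsCont T →
  ∀ β : X1.Form (2 * q), Integrable (fun g => rho δ g * T (toF (gs g β.1))) ∧
    T (toF (Av δ β.1)) = (Zc δ)⁻¹ * ∫ g, rho δ g * T (toF (gs g β.1))

/-- EXI: the smooth form which represents `T ∘ Av δ`. -/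
def ExiStmt : Prop := ∀ δ : Fin 3 → ℝ, Ad δ → ∀ p q : ℕ, p + q = 3 → ∀ T : X1.Current q,
  X1.IsCont T → ∃ K : X1.Form (2 * p), X1.Smooth K.1 ∧
    ∀ β : X1.Form (2 * q), X1.pair K.1 β.1 = T (toF (Av δ β.1))

/-- KKP: the properties of `KK` (from EXI) and linearity (from NDG). -/
def KkpStmt : Prop := ∀ δ : Fin 3 → ℝ, Ad δ → ∀ p q : ℕ, p + q = 3 → ∀ T : X1.Current q,
  X1.IsCont T →
    X1.Smooth (KK δ p q T).1 ∧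
    (∀ β : X1.Form (2 * q), X1.pair (KK δ p q T).1 β.1 = T (toF (Av δ β.1))) ∧
    (X1.IsBidim T → RotInv (KK δ p q T).1) ∧
    (∀ S : X1.Current q, X1.IsCont S → KK δ p q (T + S) = KK δ p q T + KK δ p q S) ∧
    (∀ (K : X1.Form (2 * p)) (O : Set E6), IsOpen O → Sat O →
      (∀ β : X1.Form (2 * q), X1.Smooth β.1 → (∀ z, z ∉ O → β.1 z = 0) →
        X1.pair K.1 β.1 = T (toF (Av δ β.1))) → ∀ z ∈ X1.U ∩ O, (KK δ p q T).1 z = K.1 z)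

/-! ## Part E: the properties of the scheme -/

/-- TAV: the average of a current. -/
def TavStmt : Prop := ∀ δ : Fin 3 → ℝ, Ad δ → ∀ (q : ℕ) (T : X1.Current q), X1.IsCont T →
  (∃ S : X1.Current q, AvT δ T S) ∧ ∀ S : X1.Current q, AvT δ T S →
    X1.IsCont S ∧ (X1.IsBidim T → X1.IsBidim S) ∧
    (∀ w : Bool, X1.Positive w T → X1.Positive w S) ∧
    (X1.ClosedCur T → X1.ClosedCur S) ∧ (∀ c : ℝ, X1.MassLE T c → X1.MassLE S c)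

/-- TDD: the average of `dd^c T`. -/
def TddStmt : Prop := ∀ δ : Fin 3 → ℝ, Ad δ → ∀ (q : ℕ) (T : X1.Current (q + 1))
  (P : X1.Current q), X1.IsCont T → X1.IsCont P → X1.IsDdc T P →
    ∀ (S : X1.Current (q + 1)) (R : X1.Current q), AvT δ T S → AvT δ P R → X1.IsDdc S R

/-- DSN: the DSH norm of an average. -/
def DsnStmt : Prop := ∀ δ : Fin 3 → ℝ, Ad δ → ∀ (w : Bool) (q : ℕ) (T : X1.Current q) (c : ℝ),
  X1.DshNormLE w T c → X1.IsCont T ∧ X1.IsBidim T ∧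
    ∀ S : X1.Current q, AvT δ T S → X1.DshNormLE w S c

/-- PPO: positivity of forms which represent positive currents. -/
def PpoStmt : Prop := ∀ (w : Bool) (p q : ℕ), p + q = 3 → ∀ K : X1.Form (2 * p), RotInv K.1 →
  (∀ β : X1.Form (2 * q), (∀ z ∈ X1.U, SPos q (β.1 z)) → 0 ≤ X1.pair K.1 β.1) →
    ∀ z ∈ X1.U, FPos w p (K.1 z)

/-- PR2: property (2). -/
def Pr2Stmt : Prop := ∀ δ : Fin 3 → ℝ, Ad δ → ∀ (w : Bool) (p q : ℕ), p + q = 3 →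
  ∀ T : X1.Current q, X1.Positive w T →
    (∀ z ∈ X1.U, FPos w p ((KK δ p q T).1 z)) ∧
    X1.pair (KK δ p q T).1 (X1.kpow q) = T (toF (X1.kpow q))

/-- PR3: property (3). -/
def Pr3Stmt : Prop := ∀ δ : Fin 3 → ℝ, Ad δ → ∀ p q : ℕ, p + q = 3 → ∀ T : X1.Current q,
  X1.IsCont T → X1.ClosedCur T → ∀ z ∈ X1.U, extDeriv (KK δ p q T).1 z = 0

/-- PR4: property (4). -/
def Pr4Stmt : Prop := ∀ δ : ℕ → Fin 3 → ℝ, (∀ n, Ad (δ n)) →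
  (∀ i, Tendsto (fun n => δ n i) atTop (𝓝 0)) → ∀ p q : ℕ, p + q = 3 → ∀ T : X1.Current q,
  X1.IsCont T → ∀ O : Set E6, IsOpen O → Sat O → ∀ τ : E6 → Alt 6 (2 * p), X1.EqFormOn T O τ →
    TendstoLocallyUniformlyOn (fun n => (KK (δ n) p q T).1) τ atTop (X1.U ∩ O)

/-- PR6: property (6). -/
def Pr6Stmt : Prop := ∀ δ : Fin 3 → ℝ, Ad δ → ∀ p q : ℕ, p + q = 3 → ∀ (T : X1.Current q)
  (S : X1.Current p), X1.IsCont T → X1.IsCont S → S (KK δ p q T) = T (KK δ q p S)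

/-- PR7: property (7). -/
def Pr7Stmt : Prop := ∀ δ : Fin 3 → ℝ, Ad δ → ∀ p q : ℕ, p + (q + 1) = 3 →
  ∀ (T : X1.Current (q + 1)) (S : X1.Current q), X1.IsCont T → X1.IsBidim T → X1.IsCont S →
    X1.IsBidim S → X1.IsDdc T S →
    ∀ z ∈ X1.U, ddc (KK δ p (q + 1) T).1 z = (KK δ (p + 1) q S).1 z

/-- PR8: property (8). -/
def Pr8Stmt : Prop := ∀ δ : ℕ → Fin 3 → ℝ, (∀ n, Ad (δ n)) →
  (∀ i, Tendsto (fun n => δ n i) atTop (𝓝 0)) → ∀ p q : ℕ, p + q = 3 → ∀ A O : Set E6,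
  IsOpen O → Sat O → A ⊆ O → ∃ n₀ : ℕ, ∀ T : X1.Current q, X1.IsCont T → X1.supp T = A →
    ∀ n ≥ n₀, X1.fsupp (KK (δ n) p q T).1 ⊆ O

/-- SCH: the good scheme. -/
def SchStmt : Prop := ∀ δ : ℕ → Fin 3 → ℝ, (∀ n, Ad (δ n)) →
  (∀ i, Tendsto (fun n => δ n i) atTop (𝓝 0)) → ∀ (w : Bool) (s : ℕ), ∃ K : X1.Scheme w s,
    ∀ (p q : ℕ) (T : X1.Current q) (n : ℕ), K.K true p q T n = KK (δ n) p q T ∧
      K.K false p q T n = 0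

/-! ## Part F: the example -/

/-- TEX: the current. -/
def TexStmt : Prop := ∃ T : X1.Current 0, IsT1 T ∧ ∀ w : Bool, X1.Positive w T

/-- TLZ: its Lelong numbers are zero. -/
def TlzStmt : Prop := ∀ T : X1.Current 0, IsT1 T → ∀ u ∈ X1.U, X1.LelongZero T u

/-- FPR: the pull-back of the approximations, tested on `be2`. -/
def FprStmt : Prop :=
  (X1.BasicOn X1.U be2 ∧ X1.Smooth be2) ∧
  ∀ T : X1.Current 0, IsT1 T → X1.IsCont T → ∀ δ : Fin 3 → ℝ, Ad δ →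
    X1.fpair f1L (KK δ 3 0 T).1 (toF be2).1 = Wl δ

/-- LIM: the limits depend on the shape. -/
def LimStmt : Prop := ∀ d : ℝ, 0 < d → d < 1 → ∃ e₀ : ℝ, 0 < e₀ ∧ ∀ e : ℝ, 0 < e → e < e₀ →
  e < 1 → 3 / 4 ≤ Wl ![d, e, d] ∧ Wl ![e, d, d] ≤ 1 / 4

/-- FIN: the theorem. -/
def Fin1Stmt : Prop :=
  ∃ T : X1.Current 0, ∀ w : Bool, X1.Positive w T ∧ X1.ClosedCur T ∧
    (∀ u ∈ X1.U, X1.LelongZero T u) ∧ ∀ S : X1.Current 0, ¬ X1.Sharp w f1L T S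

end Pool.Agent.SIQ
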