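import Pool.Agent.Helper15_SIQ.Lib
import Pool.Agent.Helper15_SIQ.Stmts
import Pool.Agent.Helper54_SIQ.INT

/-!
# MP_021b97_an, Q1, module AVF: the average of a form
-/

set_option autoImplicit false

open MeasureTheory Filter Topology

namespace Pool.Agent.SIQ.H15A

open Pool.Agent.SIU Pool.Agent.SIQ

section general

variable {F : Type} [NormedAddCommGroup F] [NormedSpace ℝ F] [CompleteSpace F]

/-- the average in terms of components -/
noncomputable def Psi (δ : Fin 3 → ℝ) (b : E6 → F) (z : E6) : F :=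
  (Zc δ)⁻¹ • ∫ g : E6, rho δ g • b (qm g z)

theorem cont_left {b : E6 → F} (hqua : QuaStmt) (hb : ContinuousOn b X1.U) {z : E6}
    (hz : z ∈ X1.U) : ContinuousOn (fun g => b (qm g z)) X1.U := by
  refine hb.comp (t := X1.U) ?_ fun g hg => (hqua.2.1 _ _).mpr ⟨hg, hz⟩
  exact (H54.continuous_qm.comp (continuous_id.prodMk continuous_const)).continuousOn

theorem cont_right {b : E6 → F} (hqua : QuaStmt) (hb : ContinuousOn b X1.U) {g : E6}
    (hg : g ∈ X1.U) : ContinuousOn (fun z => b (qm g z)) X1.U := by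
  refine hb.comp (t := X1.U) ?_ fun z hz => (hqua.2.1 _ _).mpr ⟨hg, hz⟩
  exact (H54.continuous_qm.comp (continuous_const.prodMk continuous_id)).continuousOn

variable {δ : Fin 3 → ℝ} {b : E6 → F} {c : ℝ}

theorem bnd (hrho : RhoStmt) (hqua : QuaStmt) (hδ : Ad δ) (hc : ∀ w ∈ X1.U, ‖b w‖ ≤ c)
    {z : E6} (hz : z ∈ X1.U) (g : E6) : ‖rho δ g • b (qm g z)‖ ≤ rho δ g * c := by
  rw [norm_smul, Real.norm_of_nonneg ((hrho δ hδ).2.1 g).1]
  by_cases h0 : rho δ g = 0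
  · rw [h0, zero_mul, zero_mul]
  · have hg := ((hrho δ hδ).2.2.2.2.2.2.1 g h0).1
    exact mul_le_mul_of_nonneg_left (hc _ ((hqua.2.1 _ _).mpr ⟨hg, hz⟩)) ((hrho δ hδ).2.1 g).1

theorem meas (hrho : RhoStmt) (hqua : QuaStmt) (hU : volume (X1.Uᶜ) = 0) (hδ : Ad δ)
    (hb : ContinuousOn b X1.U) {z : E6} (hz : z ∈ X1.U) :
    AEStronglyMeasurable (fun g => rho δ g • b (qm g z)) (volume : Measure E6) :=
  H54.aesm_of_continuousOn hU ((hrho δ hδ).1.smul (cont_left hqua hb hz))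

theorem intg (hrho : RhoStmt) (hqua : QuaStmt) (hU : volume (X1.Uᶜ) = 0) (hδ : Ad δ)
    (hb : ContinuousOn b X1.U) (hc : ∀ w ∈ X1.U, ‖b w‖ ≤ c) {z : E6} (hz : z ∈ X1.U) :
    Integrable (fun g => rho δ g • b (qm g z)) :=
  Integrable.mono' ((hrho δ hδ).2.2.1.mul_const c) (meas hrho hqua hU hδ hb hz)
    (Filter.Eventually.of_forall (bnd hrho hqua hδ hc hz))

theorem contPsi (hrho : RhoStmt) (hqua : QuaStmt) (hU : volume (X1.Uᶜ) = 0) (hδ : Ad δ)
    (hb : ContinuousOn b X1.U) (hc : ∀ w ∈ X1.U, ‖b w‖ ≤ c) :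
    ContinuousOn (Psi δ b) X1.U := by
  have h1 : ContinuousOn (fun z => ∫ g : E6, rho δ g • b (qm g z)) X1.U := by
    refine continuousOn_of_dominated (bound := fun g => rho δ g * c)
      (fun z hz => meas hrho hqua hU hδ hb hz)
      (fun z hz => Filter.Eventually.of_forall (bnd hrho hqua hδ hc hz))
      ((hrho δ hδ).2.2.1.mul_const c) ?_
    have hae : ∀ᵐ g : E6, g ∈ X1.U := mem_ae_iff.mpr hU
    filter_upwards [hae] with g hg
    exact continuousOn_const.smul (cont_right hqua hb hg)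
  exact continuousOn_const.smul h1

theorem normPsi (hrho : RhoStmt) (hqua : QuaStmt) (hδ : Ad δ)
    (hc : ∀ w ∈ X1.U, ‖b w‖ ≤ c) {z : E6} (hz : z ∈ X1.U) : ‖Psi δ b z‖ ≤ c := by
  have hZ := (hrho δ hδ).2.2.2.1
  have h1 : ‖∫ g : E6, rho δ g • b (qm g z)‖ ≤ ∫ g : E6, rho δ g * c :=
    norm_integral_le_of_norm_le ((hrho δ hδ).2.2.1.mul_const c)
      (Filter.Eventually.of_forall (bnd hrho hqua hδ hc hz))
  rw [integral_mul_const] at h1
  unfold Psi
  rw [norm_smul, norm_inv, Real.norm_of_nonneg hZ.le]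
  calc (Zc δ)⁻¹ * ‖∫ g : E6, rho δ g • b (qm g z)‖ ≤ (Zc δ)⁻¹ * (Zc δ * c) :=
        mul_le_mul_of_nonneg_left h1 (inv_nonneg.mpr hZ.le)
    _ = c := by field_simp

theorem Psi_comm {G : Type} [NormedAddCommGroup G] [NormedSpace ℝ G] [CompleteSpace G]
    (L : F →L[ℝ] G) {z : E6} (hi : Integrable (fun g => rho δ g • b (qm g z))) :
    L (Psi δ b z) = (Zc δ)⁻¹ • ∫ g : E6, rho δ g • L (b (qm g z)) := by
  unfold Psi
  rw [map_smul, ← L.integral_comp_comm hi]
  simp only [map_smul]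

end general

/-- composition with a linear map -/
noncomputable def cL {M N k : ℕ} (f : (Fin M → ℂ) →L[ℝ] (Fin N → ℂ)) : Alt N k →L[ℝ] Alt M k :=
  ContinuousAlternatingMap.compContinuousLinearMapCLM f

theorem cL_apply {M N k : ℕ} (f : (Fin M → ℂ) →L[ℝ] (Fin N → ℂ)) (a : Alt N k) :
    cL f a = a.compContinuousLinearMap f := rfl

theorem avf (hcpt : CptStmt) (hqua : QuaStmt) (hqum : QumStmt) (hrho : RhoStmt)
    (hgsf : GsfStmt) : AvfStmt := by
  intro δ hδ k β hβc hβb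
  have hU := hqum.2.2.2.2.2.1
  have hbc : ContinuousOn (cmp β) X1.U := H54.continuousOn_cmp hcpt hβc
  -- a bound
  have hext : ∀ c : ℝ, (∀ z ∈ M1, ‖cmp β z‖ ≤ c) → ∀ z ∈ X1.U, ‖cmp β z‖ ≤ c := by
    intro c hc z hz
    rw [hcpt.2.2.2.2.2.2 k β hβb z hz]
    exact hc _ (nz_mem hz)
  obtain ⟨c, hc⟩ : ∃ c : ℝ, ∀ z ∈ X1.U, ‖cmp β z‖ ≤ c := by
    obtain ⟨c, hc⟩ := isCompact_M1.exists_bound_of_continuousOn (hbc.mono M1_subset)
    exact ⟨c, hext c hc⟩
  have hI : ∀ z ∈ X1.U, Integrable (fun g => rho δ g • cmp β (qm g z)) := fun z hz =>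
    intg hrho hqua hU hδ hbc hc hz
  -- the form in terms of its components
  have hgs : ∀ z ∈ X1.U, ∀ g : E6, rho δ g • gs g β z =
      cL ((fl z).restrictScalars ℝ) (rho δ g • cmp β (qm g z)) := by
    intro z hz g
    by_cases h0 : rho δ g = 0
    · rw [h0, zero_smul, zero_smul, map_zero]
    · have hg := ((hrho δ hδ).2.2.2.2.2.2.1 g h0).1
      have h1 := (hcpt.1 k (gs g β) ((hgsf g hg).2.1 k β hβb)).2 z hz
      rw [map_smul, cL_apply, ← hcpt.2.2.2.2.1 k g β z, ← h1]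
  have hAv : ∀ z ∈ X1.U, Av δ β z = cL ((fl z).restrictScalars ℝ) (Psi δ (cmp β) z) := by
    intro z hz
    rw [Psi_comm _ (hI z hz)]
    unfold Av
    congr 1
    apply integral_congr_ae
    filter_upwards with g
    rw [hgs z hz g, map_smul]
  have hE : Eqv (Psi δ (cmp β)) := by
    intro z hz a ha
    have h1 := (hcpt.1 k β hβb).1
    show _ = cL _ (Psi δ (cmp β) z)
    rw [Psi_comm _ (hI z hz)]
    unfold Psi
    congr 1
    apply integral_congr_ae
    filter_upwards with g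
    by_cases h0 : rho δ g = 0
    · rw [h0, zero_smul, zero_smul]
    · have hg := ((hrho δ hδ).2.2.2.2.2.2.1 g h0).1
      rw [← hqua.2.2.2.1 a g z, h1 _ ((hqua.2.1 _ _).mpr ⟨hg, hz⟩) a ha]
      rfl
  have hofc : ∀ z ∈ X1.U, Av δ β z = ofc (Psi δ (cmp β)) z := by
    intro z hz
    rw [hAv z hz]
    unfold ofc
    rw [if_pos hz]
    rfl
  have hcm : ∀ z ∈ X1.U, cmp (Av δ β) z = Psi δ (cmp β) z := by
    intro z hz
    rw [← (hcpt.2.1 k _ hE).2 z hz]
    exact congrArg (fun a : Alt 6 k =>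
      a.compContinuousLinearMap ((fE z).restrictScalars ℝ)) (hofc z hz)
  refine ⟨fun z hz => ?_, ?_, ?_, fun z hz => ⟨hI z hz, hcm z hz⟩, fun c' hc' z hz => ?_⟩
  · have := (cL ((fl z).restrictScalars ℝ)).integrable_comp (hI z hz)
    refine this.congr (Filter.Eventually.of_forall fun g => ?_)
    exact (hgs z hz g).symm
  · have h0 : ContDiffOn ℝ ((0 : ℕ∞) : WithTop ℕ∞) (Psi δ (cmp β)) X1.U :=
      contDiffOn_zero.mpr (contPsi hrho hqua hU hδ hbc hc)
    exact (hcpt.2.2.2.1 k 0 _ h0).continuousOn.congr hofc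
  · have hB := (hcpt.2.1 k _ hE).1
    refine ⟨fun z hz a ha v => ?_, fun z hz v i hv => ?_⟩
    · rw [hofc z hz, hofc _ ((sat_U : Sat X1.U) z hz a ha)]
      exact hB.1 z hz a ha v
    · rw [hofc z hz]
      exact hB.2 z hz v i hv
  · rw [hcm z hz]
    exact normPsi hrho hqua hδ (hext c' hc') hz

end Pool.Agent.SIQ.H15A
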