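import Pool.Agent.Helper15_SIQ.SCH

/-!
# MP_021b97_an, Q1: assembly of the theorem
-/

set_option autoImplicit false

open MeasureTheory Filter Topology

namespace Pool.Agent.SIQ.H15

open Pool.Agent.SIU Pool.Agent.SIQ

theorem fin1 (hsch : SchStmt) (htex : TexStmt) (htlz : TlzStmt) (hfpr : FprStmt)
    (hlim : LimStmt) : Fin1Stmt := by
  obtain ⟨T, hT1, hpos⟩ := htex
  refine ⟨T, fun w => ⟨hpos w, fun k hk => by omega, htlz T hT1, fun S hS => ?_⟩⟩
  obtain ⟨s, hs⟩ := hS
  -- the parameters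
  let d : ℕ → ℝ := fun n => 1 / ((n : ℝ) + 2)
  have hd0 : ∀ n, 0 < d n := fun n => by positivity
  have hd1 : ∀ n, d n < 1 := fun n => by
    show 1 / ((n : ℝ) + 2) < 1
    rw [div_lt_one (by positivity)]
    have : (0 : ℝ) ≤ n := Nat.cast_nonneg n
    linarith
  have hdt : Tendsto d atTop (𝓝 0) := by
    have h := tendsto_one_div_add_atTop_nhds_zero_nat (𝕜 := ℝ)
    have h2 := h.comp (tendsto_add_atTop_nat 1)
    refine h2.congr fun n => ?_
    show 1 / (((n + 1 : ℕ) : ℝ) + 1) = 1 / ((n : ℝ) + 2)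
    push_cast
    ring
  choose e₀ he₀ hel using fun n => hlim (d n) (hd0 n) (hd1 n)
  let e : ℕ → ℝ := fun n => min (e₀ n / 2) (d n / 2)
  have he0 : ∀ n, 0 < e n := fun n => lt_min (half_pos (he₀ n)) (half_pos (hd0 n))
  have hele : ∀ n, e n ≤ d n / 2 := fun n => min_le_right _ _
  have he1 : ∀ n, e n < 1 := fun n => by
    have := hele n
    have := hd1 n
    have := hd0 n
    linarith
  have hee : ∀ n, e n < e₀ n := fun n =>
    lt_of_le_of_lt (min_le_left _ _) (half_lt_self (he₀ n))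
  have het : Tendsto e atTop (𝓝 0) := by
    refine squeeze_zero (fun n => (he0 n).le) (fun n => ?_) hdt
    have := hele n
    have := hd0 n
    linarith
  let δA : ℕ → Fin 3 → ℝ := fun n => ![d n, e n, d n]
  let δB : ℕ → Fin 3 → ℝ := fun n => ![e n, d n, d n]
  have hA : ∀ n, Ad (δA n) := fun n i => by
    fin_cases i
    · exact ⟨hd0 n, hd1 n⟩
    · exact ⟨he0 n, he1 n⟩
    · exact ⟨hd0 n, hd1 n⟩
  have hB : ∀ n, Ad (δB n) := fun n i => by
    fin_cases i
    · exact ⟨he0 n, he1 n⟩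
    · exact ⟨hd0 n, hd1 n⟩
    · exact ⟨hd0 n, hd1 n⟩
  have hAt : ∀ i, Tendsto (fun n => δA n i) atTop (𝓝 0) := fun i => by
    fin_cases i
    · exact hdt
    · exact het
    · exact hdt
  have hBt : ∀ i, Tendsto (fun n => δB n i) atTop (𝓝 0) := fun i => by
    fin_cases i
    · exact het
    · exact hdt
    · exact hdt
  obtain ⟨KA, hKA⟩ := hsch δA hA hAt w (s + 2)
  obtain ⟨KB, hKB⟩ := hsch δB hB hBt w (s + 2)
  -- the test form
  obtain ⟨⟨hbb, hbs⟩, hval⟩ := hfpr
  have hsm : X1.Smooth (toF be2).1 := by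
    refine ContDiffOn.congr hbs fun z hz => ?_
    exact toF_apply (ContDiffOn.continuousOn hbs) hbb hz
  have tA := hs KA (toF be2) hsm
  have tB := hs KB (toF be2) hsm
  have hcont : X1.IsCont T := (hpos true).2.1
  have vA : ∀ n, X1.fpair f1L (KA.K true (3 - 0) 0 T n - KA.K false (3 - 0) 0 T n).1
      (toF be2).1 = Wl (δA n) := by
    intro n
    have h1 : KA.K true (3 - 0) 0 T n - KA.K false (3 - 0) 0 T n = KK (δA n) 3 0 T := by
      rw [(hKA 3 0 T n).1, (hKA 3 0 T n).2]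
      exact form_sub_zero _
    rw [h1]
    exact hval T hT1 hcont (δA n) (hA n)
  have vB : ∀ n, X1.fpair f1L (KB.K true (3 - 0) 0 T n - KB.K false (3 - 0) 0 T n).1
      (toF be2).1 = Wl (δB n) := by
    intro n
    have h1 : KB.K true (3 - 0) 0 T n - KB.K false (3 - 0) 0 T n = KK (δB n) 3 0 T := by
      rw [(hKB 3 0 T n).1, (hKB 3 0 T n).2]
      exact form_sub_zero _
    rw [h1]
    exact hval T hT1 hcont (δB n) (hB n)
  have g1 : 3 / 4 ≤ S (toF be2) := by
    refine ge_of_tendsto tA (Filter.Eventually.of_forall fun n => ?_)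
    rw [vA n]
    exact (hel n (e n) (he0 n) (hee n) (he1 n)).1
  have g2 : S (toF be2) ≤ 1 / 4 := by
    refine le_of_tendsto tB (Filter.Eventually.of_forall fun n => ?_)
    rw [vB n]
    exact (hel n (e n) (he0 n) (hee n) (he1 n)).2
  linarith

end Pool.Agent.SIQ.H15
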