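import Pool.Agent.Helper26_SIQ.SUP
import Pool.Agent.Helper76_SIQ.PR8
import Pool.Agent.Helper54_SIQ.Dif
import Pool.Agent.Helper15_SIQ.AVF

/-!
# MP_021b97_an, Q1, module PR4: local uniform convergence where `T` is a continuous form
-/

set_option autoImplicit false

open MeasureTheory Filter Topology

namespace Pool.Agent.SIQ.H15R

open Pool.Agent.SIU Pool.Agent.SIQ H26

open Classical in
/-- invariant function, positive exactly on `O` -/
noncomputable def ch (O : Set E6) (z : E6) : ℝ := if (M1 \ O).Nonempty then chi O z else 1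

theorem ch_cont (O : Set E6) : ContinuousOn (ch O) X1.U := by
  by_cases h : (M1 \ O).Nonempty
  · have : ch O = chi O := funext fun z => if_pos h
    rw [this]
    exact chi_cont O
  · have : ch O = fun _ => 1 := funext fun z => if_neg h
    rw [this]
    exact continuousOn_const

theorem ch_inv {O : Set E6} (hO : Sat O) (z : E6) (c : C3) (hc : ∀ j, c j ≠ 0) :
    ch O (X1.act c z) = ch O z := by
  by_cases h : (M1 \ O).Nonempty
  · have : ch O = chi O := funext fun z => if_pos h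
    rw [this]
    exact chi_inv hO h z c hc
  · have : ch O = fun _ => 1 := funext fun z => if_neg h
    rw [this]

theorem ch_zero {O : Set E6} (hO : Sat O) {z : E6} (hz : z ∈ X1.U) (hn : z ∉ O) :
    ch O z = 0 := by
  have h : (M1 \ O).Nonempty := ⟨nz z, nz_mem hz, fun h => hn ((nz_mem_iff hO hz).mp h)⟩
  have : ch O z = chi O z := if_pos h
  rw [this]
  exact chi_zero hO hz hn

theorem ch_pos {O : Set E6} (hO : Sat O) (ho : IsOpen O) {z : E6} (hz : z ∈ X1.U)
    (hn : z ∈ O) : 0 < ch O z := by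
  by_cases h : (M1 \ O).Nonempty
  · have : ch O z = chi O z := if_pos h
    rw [this]
    exact chi_pos hO ho h hz hn
  · have : ch O z = 1 := if_neg h
    rw [this]
    exact one_pos

/-- the cut off function -/
noncomputable def cut (O : Set E6) (s : ℝ) (z : E6) : ℝ := max 0 (min 1 (ch O z / (s / 2) - 1))

theorem cut_cont (O : Set E6) (s : ℝ) : ContinuousOn (cut O s) X1.U :=
  continuousOn_const.sup (continuousOn_const.inf (((ch_cont O).div_const _).sub
    continuousOn_const))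

theorem cut_inv {O : Set E6} (hO : Sat O) (s : ℝ) (z : E6) (c : C3) (hc : ∀ j, c j ≠ 0) :
    cut O s (X1.act c z) = cut O s z := by
  unfold cut
  rw [ch_inv hO z c hc]

theorem cut_one {O : Set E6} {s : ℝ} (hs : 0 < s) {z : E6} (h : s ≤ ch O z) :
    cut O s z = 1 := by
  unfold cut
  have h1 : 2 ≤ ch O z / (s / 2) := by
    rw [le_div_iff₀ (by positivity)]
    linarith
  rw [min_eq_left (by linarith), max_eq_right zero_le_one]

theorem cut_zero {O : Set E6} {s : ℝ} (hs : 0 < s) {z : E6} (h : ch O z ≤ s / 2) :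
    cut O s z = 0 := by
  unfold cut
  have h1 : ch O z / (s / 2) ≤ 1 := by
    rw [div_le_one (by positivity)]
    exact h
  exact max_eq_left ((min_le_right _ _).trans (by linarith))

/-- sets `{t < ch}` -/
def up (O : Set E6) (t : ℝ) : Set E6 := {z | z ∈ X1.U ∧ t < ch O z}

/-- sets `{t ≤ ch}` -/
def upc (O : Set E6) (t : ℝ) : Set E6 := {z | z ∈ X1.U ∧ t ≤ ch O z}

/-- sets `{ch ≤ t}` -/
def dnc (O : Set E6) (t : ℝ) : Set E6 := {z | z ∈ X1.U ∧ ch O z ≤ t}

theorem up_open (O : Set E6) (t : ℝ) : IsOpen (up O t) := by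
  have := (ch_cont O).isOpen_inter_preimage isOpen_U1 (isOpen_Ioi (a := t))
  exact this

theorem dn_open (O : Set E6) (t : ℝ) : IsOpen {z | z ∈ X1.U ∧ ch O z < t} := by
  have := (ch_cont O).isOpen_inter_preimage isOpen_U1 (isOpen_Iio (a := t))
  exact this

theorem up_sat {O : Set E6} (hO : Sat O) (t : ℝ) : Sat (up O t) := fun y hy c hc =>
  ⟨(act1_mem_U hc y).mpr hy.1, by rw [ch_inv hO y c hc]; exact hy.2⟩

theorem upc_sat {O : Set E6} (hO : Sat O) (t : ℝ) : Sat (upc O t) := fun y hy c hc =>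
  ⟨(act1_mem_U hc y).mpr hy.1, by rw [ch_inv hO y c hc]; exact hy.2⟩

theorem dnc_sat {O : Set E6} (hO : Sat O) (t : ℝ) : Sat (dnc O t) := fun y hy c hc =>
  ⟨(act1_mem_U hc y).mpr hy.1, by rw [ch_inv hO y c hc]; exact hy.2⟩

theorem upc_closed (O : Set E6) (t : ℝ) : X1.U ∩ closure (upc O t) ⊆ upc O t := by
  rintro z ⟨hz, hzc⟩
  refine ⟨hz, ?_⟩
  by_contra h
  push Not at h
  obtain ⟨y, hy, hy'⟩ := mem_closure_iff.mp hzc _ (dn_open O t) ⟨hz, h⟩
  exact absurd hy.2 (not_lt.mpr hy'.2)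

theorem dnc_closed (O : Set E6) (t : ℝ) : X1.U ∩ closure (dnc O t) ⊆ dnc O t := by
  rintro z ⟨hz, hzc⟩
  refine ⟨hz, ?_⟩
  by_contra h
  push Not at h
  obtain ⟨y, hy, hy'⟩ := mem_closure_iff.mp hzc _ (up_open O t) ⟨hz, h⟩
  exact absurd hy.2 (not_lt.mpr hy'.2)

open Classical in
/-- the form `χ τ` -/
noncomputable def tt {k : ℕ} (O : Set E6) (s : ℝ) (τ : E6 → Alt 6 k) (z : E6) : Alt 6 k :=
  if z ∈ X1.U ∩ O then cut O s z • τ z else 0

theorem tt_mem {k : ℕ} {O : Set E6} (ho : IsOpen O) (hO : Sat O) {s : ℝ} (hs : 0 < s)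
    {τ : E6 → Alt 6 k} (hc : ContinuousOn τ (X1.U ∩ O)) (hb : X1.BasicOn (X1.U ∩ O) τ) :
    tt O s τ ∈ X1.Form k := by
  have hUO : IsOpen (X1.U ∩ O) := isOpen_U1.inter ho
  refine ⟨fun z hz => ?_, ⟨fun z hz c hcc v => ?_, fun z hz v i hv => ?_⟩, fun z hz => ?_⟩
  · by_cases h : z ∈ O
    · have h1 : ContinuousAt (fun z => cut O s z • τ z) z :=
        (((cut_cont O s).mono Set.inter_subset_left).smul hc).continuousAt (hUO.mem_nhds ⟨hz, h⟩)
      refine (h1.congr ?_).continuousWithinAt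
      filter_upwards [hUO.mem_nhds ⟨hz, h⟩] with w hw
      exact (if_pos hw).symm
    · have h0 : ch O z < s / 2 := by
        rw [ch_zero hO hz h]
        positivity
      have h1 : ContinuousAt (fun _ : E6 => (0 : Alt 6 k)) z := continuousAt_const
      refine (h1.congr ?_).continuousWithinAt
      filter_upwards [(dn_open O (s / 2)).mem_nhds ⟨hz, h0⟩] with w hw
      show 0 = tt O s τ w
      unfold tt
      split_ifs with h2
      · rw [cut_zero hs hw.2.le, zero_smul]
      · rfl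
  · unfold tt
    by_cases h : z ∈ O
    · have h1 : z ∈ X1.U ∩ O := ⟨hz, h⟩
      have h2 : X1.act c z ∈ X1.U ∩ O := ⟨(act1_mem_U hcc z).mpr hz, hO z h c hcc⟩
      rw [if_pos h1, if_pos h2]
      show cut O s (X1.act c z) * τ (X1.act c z) (fun i => X1.act c (v i)) = cut O s z * τ z v
      rw [cut_inv hO s z c hcc, hb.1 z ⟨hz, h⟩ c hcc v]
    · have h1 : z ∉ X1.U ∩ O := fun h' => h h'.2
      have h2 : X1.act c z ∉ X1.U ∩ O := fun h' => h (sat_inv hO hcc h'.2)
      rw [if_neg h1, if_neg h2]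
      rfl
  · unfold tt
    by_cases h : z ∈ O
    · rw [if_pos ⟨hz, h⟩]
      show cut O s z * τ z v = 0
      rw [hb.2 z ⟨hz, h⟩ v i hv, mul_zero]
    · rw [if_neg fun h' => h h'.2]
      rfl
  · exact if_neg fun h => hz h.1

theorem wedge_zero_right {N k l : ℕ} (a : Alt N k) (v : Fin (k + l) → Fin N → ℂ) :
    wedge a (0 : Alt N l) v = 0 := by
  have h : tensor a (0 : Alt N l) = 0 := by
    ext v
    show a _ * (0 : ℝ) = 0
    rw [mul_zero]
  unfold wedge
  rw [h, map_zero, smul_zero]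
  rfl

/-- the pairing with a form which vanishes where the two forms differ -/
theorem pair_loc {k l : ℕ} {a a' : E6 → Alt 6 k} {b : E6 → Alt 6 l}
    (h : ∀ z ∈ X1.U, b z = 0 ∨ a z = a' z) : X1.pair a b = X1.pair a' b := by
  unfold Toric.pair
  apply integral_congr_ae
  filter_upwards with x
  rcases h _ (sigma1_mem_U x) with h0 | h0
  · have : Toric.pull X1.σ b x = 0 := by
      unfold Toric.pull
      rw [h0]
      rfl
    rw [this, wedge_zero_right, wedge_zero_right]
  · have : Toric.pull X1.σ a x = Toric.pull X1.σ a' x := by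
      unfold Toric.pull
      rw [h0]
    rw [this]

theorem pr4 (hsym : SymStmt) (huni : UniStmt) (htop : TopStmt) (hkkp : KkpStmt)
    (havf : AvfStmt) (hrho : RhoStmt) : Pr4Stmt := by
  intro δ hδ hlim p q hpq T hT O ho hO τ hτ
  obtain ⟨hτc, hτb, hτT⟩ := hτ
  rw [Metric.tendstoLocallyUniformlyOn_iff]
  intro ε hε z₀ hz₀
  have hch0 : 0 < ch O z₀ := ch_pos hO ho hz₀.1 hz₀.2
  obtain ⟨s, hs, hs2⟩ : ∃ s : ℝ, 0 < s ∧ 2 * s < ch O z₀ := ⟨ch O z₀ / 4, by positivity, by
    linarith⟩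
  obtain ⟨OA, OF, ε', hε', hOA, hOF, hsA, hsF, hA', hF', hAU, hFU, hsep⟩ :=
    htop (dnc O s) (upc O (2 * s)) (fun z hz => hz.1) (fun z hz => hz.1) (dnc_sat hO _)
      (upc_sat hO _) (Set.disjoint_left.mpr fun z hz hz' => by
        have := hz.2; have := hz'.2; linarith) (dnc_closed O s) (upc_closed O _)
  let τ' : X1.Form (2 * p) := ⟨tt O s τ, tt_mem ho hO hs hτc hτb⟩
  have hkl : 2 * p + 2 * q = 6 := by omega
  have key : ∀ᶠ n in atTop, ∀ z ∈ up O (2 * s), (KK (δ n) p q T).1 z = Av (δ n) τ'.1 z := by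
    have hev : ∀ᶠ n in atTop, ∀ i, δ n i < ε' := by
      rw [eventually_all]
      exact fun i => (hlim i).eventually (gt_mem_nhds hε')
    filter_upwards [hev] with n hn z hz
    obtain ⟨-, a2, a3, -⟩ := havf (δ n) (hδ n) (2 * p) τ'.1 τ'.2.1 τ'.2.2.1
    rw [← toF_apply a2 a3 hz.1]
    refine (hkkp (δ n) (hδ n) p q hpq T hT).2.2.2.2 (toF (Av (δ n) τ'.1)) (up O (2 * s))
      (up_open O _) (up_sat hO _) (fun β _ hβ => ?_) z ⟨hz.1, hz⟩
    obtain ⟨-, b2, b3, -⟩ := havf (δ n) (hδ n) (2 * q) β.1 β.2.1 β.2.2.1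
    -- the average of `β` vanishes on `{ch ≤ s}`
    have hav : ∀ w ∈ X1.U, ch O w ≤ s → Av (δ n) β.1 w = 0 := by
      intro w hw hws
      refine H76.av_zero hrho β.1 (hδ n) fun g hg hg' => hβ _ fun hmem => ?_
      refine hsep w (hA' ⟨hw, hws⟩) g hg (fun i => ?_) (hF' ⟨hmem.1, hmem.2.le⟩)
      refine lt_of_le_of_lt ?_ (hg' i)
      exact mul_le_mul_of_nonneg_right (by linarith [hn i]) (Real.sqrt_nonneg _)
    have hsupp : X1.fsupp (toF (Av (δ n) β.1)).1 ⊆ O := by
      rintro w ⟨hw, hwc⟩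
      have h1 : closure {z | z ∈ X1.U ∧ (toF (Av (δ n) β.1)).1 z ≠ 0} ⊆ closure (upc O s) := by
        apply closure_mono
        rintro y ⟨hy, hy'⟩
        refine ⟨hy, ?_⟩
        by_contra hlt
        push Not at hlt
        apply hy'
        rw [toF_apply b2 b3 hy]
        exact hav y hy hlt.le
      have h2 := upc_closed O s ⟨hw, h1 hwc⟩
      by_contra hwO
      have h3 := ch_zero hO hw hwO
      have h4 := h2.2
      linarith
    rw [hτT _ hsupp]
    have e1 : X1.pair (toF (Av (δ n) τ'.1)).1 β.1 = X1.pair (Av (δ n) τ'.1) β.1 :=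
      H54.pair_congr (fun w hw => toF_apply a2 a3 hw) fun _ _ => rfl
    have e2 : X1.pair τ (toF (Av (δ n) β.1)).1 = X1.pair τ (Av (δ n) β.1) :=
      H54.pair_congr (fun _ _ => rfl) fun w hw => toF_apply b2 b3 hw
    rw [e1, e2, (hsym (δ n) (δ n) (hδ n) (hδ n)).1 (2 * p) (2 * q) hkl τ' β]
    refine pair_loc fun w hw => ?_
    by_cases hws : ch O w ≤ s
    · exact Or.inl (hav w hw hws)
    · push Not at hws
      right
      have hwO : w ∈ O := by
        by_contra h
        rw [ch_zero hO hw h] at hws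
        linarith
      show tt O s τ w = τ w
      unfold tt
      rw [if_pos ⟨hw, hwO⟩, cut_one hs hws.le, one_smul]
  -- a compact neighbourhood of `z₀`
  obtain ⟨r, hr, hball⟩ := Metric.isOpen_iff.mp (up_open O (2 * s)) z₀ ⟨hz₀.1, hs2⟩
  have hcb : Metric.closedBall z₀ (r / 2) ⊆ up O (2 * s) :=
    (Metric.closedBall_subset_ball (by linarith)).trans hball
  refine ⟨Metric.closedBall z₀ (r / 2), mem_nhdsWithin_of_mem_nhds
    (Metric.closedBall_mem_nhds z₀ (by positivity)), ?_⟩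
  have hu := huni (2 * p) τ' δ hδ hlim (Metric.closedBall z₀ (r / 2))
    (isCompact_closedBall z₀ (r / 2)) (fun w hw => (hcb hw).1) (ε / 2) (by positivity)
  filter_upwards [hu, key] with n h1 h2 w hw
  have h3 : τ'.1 w = τ w := by
    have h4 := hcb hw
    have hwO : w ∈ O := by
      by_contra h
      have := ch_zero hO h4.1 h
      have h5 := h4.2
      linarith
    show tt O s τ w = τ w
    unfold tt
    rw [if_pos ⟨h4.1, hwO⟩, cut_one hs (by linarith [h4.2]), one_smul]
  rw [h2 w (hcb hw), dist_comm, dist_eq_norm, ← h3]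
  exact lt_of_le_of_lt (h1 w hw) (by linarith)

end Pool.Agent.SIQ.H15R
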