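import Pool.Agent.Helper15_SIQ.Stmts
import Pool.Agent.Helper15_SIU.Stmts

/-!
# MP_021b97_an, Q1: the good approximation scheme
-/

set_option autoImplicit false

open MeasureTheory Filter Topology

namespace Pool.Agent.SIQ.H15

open Pool.Agent.SIU Pool.Agent.SIQ

theorem wedge_zero_left (hwdg : WdgStmt) {N k l : ℕ} (b : Alt N l) :
    wedge (0 : Alt N k) b = 0 := by
  have h := (hwdg N k l).1 0 0 b
  rw [add_zero] at h
  exact left_eq_add.mp h

theorem pair_zero (hwdg : WdgStmt) {k l : ℕ} (b : E6 → Alt 6 l) :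
    X1.pair (0 : X1.Form k).1 b = 0 := by
  unfold Toric.pair
  have : ∀ x : C3, wedge (Toric.pull X1.σ (0 : X1.Form k).1 x) (Toric.pull X1.σ b x)
      (stdb 3 (k + l)) = 0 := by
    intro x
    have h0 : Toric.pull X1.σ (0 : X1.Form k).1 x = 0 := rfl
    rw [h0, wedge_zero_left hwdg]
    rfl
  simp only [this]
  exact integral_zero _ _

theorem isCont_zero (q : ℕ) : X1.IsCont (0 : X1.Current q) :=
  ⟨∅, 0, isCompact_empty, Set.empty_subset _, fun β c _ => by
    rw [zero_mul]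
    exact (abs_zero (α := ℝ)).le⟩

theorem positive_zero (w : Bool) (q : ℕ) : X1.Positive w (0 : X1.Current q) :=
  ⟨fun _ _ _ _ _ => rfl, isCont_zero q, fun _ _ => le_refl _⟩

theorem closed_zero (q : ℕ) : X1.ClosedCur (0 : X1.Current q) := fun _ _ _ _ _ _ => rfl

theorem ddc_zero (q : ℕ) : X1.IsDdc (0 : X1.Current (q + 1)) (0 - 0 : X1.Current q) := by
  refine ⟨fun _ _ _ _ _ => rfl, fun φ _ _ β _ => ?_⟩
  rw [sub_zero]
  rfl

theorem mass_zero (q : ℕ) : X1.MassLE (0 : X1.Current q) 0 := fun _ _ => le_refl _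

theorem dsh_zero (w : Bool) : ∀ q : ℕ, X1.DshNormLE w (0 : X1.Current q) 0
  | 0 => ⟨0, 0, (sub_zero 0).symm, positive_zero w 0, positive_zero w 0, 0, 0, mass_zero 0,
      mass_zero 0, by simp⟩
  | q + 1 => ⟨0, 0, 0, 0, 0, 0, (sub_zero 0).symm, positive_zero w _, positive_zero w _,
      positive_zero w _, positive_zero w _, positive_zero w _, positive_zero w _, closed_zero _,
      closed_zero _, closed_zero _, closed_zero _, ddc_zero q, ddc_zero q, 0, 0, 0, 0,
      mass_zero _, mass_zero _, mass_zero _, mass_zero _, by simp⟩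

theorem fpos_zero {N : ℕ} (w : Bool) (p : ℕ) : FPos w p (0 : Alt N (2 * p)) := by
  cases w
  · exact ⟨0, fun i => i.elim0, fun i => i.elim0, fun l => l.elim0, fun v => by simp⟩
  · exact ⟨fun _ => le_refl _, fun _ _ _ => rfl⟩

theorem extDeriv_zeroF {N k : ℕ} (z : Fin N → ℂ) :
    extDeriv (0 : (Fin N → ℂ) → Alt N k) z = 0 := by
  ext v
  rw [extDeriv_apply (show DifferentiableAt ℝ (0 : (Fin N → ℂ) → Alt N k) z from
    differentiableAt_const 0)]
  simp

theorem ddc_zeroF {N k : ℕ} (z : Fin N → ℂ) : ddc (0 : (Fin N → ℂ) → Alt N k) z = 0 := by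
  unfold ddc
  have : (fun w => (extDeriv (0 : (Fin N → ℂ) → Alt N k) w).compContinuousLinearMap
      (mulC N Complex.I)) = (0 : (Fin N → ℂ) → Alt N (k + 1)) := by
    funext w
    rw [extDeriv_zeroF]
    rfl
  rw [this, extDeriv_zeroF, neg_zero]

theorem form_sub_zero {k : ℕ} (K : X1.Form k) : K - 0 = K := sub_zero K

theorem conv_T (hcpt : CptStmt) (havf : AvfStmt) (huni : UniStmt) (δ : ℕ → Fin 3 → ℝ)
    (hδ : ∀ n, Ad (δ n)) (hδ0 : ∀ i, Tendsto (fun n => δ n i) atTop (𝓝 0)) (q : ℕ)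
    (T : X1.Current q) (hT : X1.IsCont T) (β : X1.Form (2 * q)) :
    Tendsto (fun n => T (toF (Av (δ n) β.1))) atTop (𝓝 (T β)) := by
  have _ := hcpt
  obtain ⟨Q, C, hQ, hQU, hC⟩ := hT
  rw [Metric.tendsto_atTop']
  intro ε hε
  have h := huni (2 * q) β δ hδ hδ0 Q hQ hQU (ε / (|C| + 1)) (by positivity)
  obtain ⟨N, hN⟩ := eventually_atTop.mp h
  refine ⟨N, fun n hn => ?_⟩
  rw [Real.dist_eq, ← map_sub]
  have h1 := hC (toF (Av (δ n) β.1) - β) (ε / (|C| + 1)) (by
    intro z hz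
    have h2 := hN n hn.le z hz
    have h3 : (toF (Av (δ n) β.1) - β).1 z = Av (δ n) β.1 z - β.1 z := by
      show (toF (Av (δ n) β.1)).1 z - β.1 z = _
      rw [toF_apply (havf (δ n) (hδ n) _ β.1 β.2.1 β.2.2.1).2.1
        (havf (δ n) (hδ n) _ β.1 β.2.1 β.2.2.1).2.2.1 (hQU hz)]
    rw [h3]
    exact h2)
  refine lt_of_le_of_lt h1 ?_
  have h4 : C * (ε / (|C| + 1)) ≤ |C| * (ε / (|C| + 1)) :=
    mul_le_mul_of_nonneg_right (le_abs_self C) (by positivity)
  refine lt_of_le_of_lt h4 ?_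
  rw [mul_div_assoc', div_lt_iff₀ (by positivity)]
  nlinarith [abs_nonneg C]

theorem sch (hwdg : WdgStmt) (hcpt : CptStmt) (havf : AvfStmt) (huni : UniStmt) (hkkp : KkpStmt)
    (htav : TavStmt) (hdsn : DsnStmt) (h2 : Pr2Stmt) (h3 : Pr3Stmt) (h4 : Pr4Stmt)
    (h6 : Pr6Stmt) (h7 : Pr7Stmt) (h8 : Pr8Stmt) : SchStmt := by
  intro δ hδ hδ0 w s
  have hcont : ∀ {q : ℕ} {T : X1.Current q}, X1.IsDsh w T → X1.IsCont T := by
    rintro q T ⟨c, hc⟩
    exact (hdsn (δ 0) (hδ 0) w q T c hc).1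
  have hbid : ∀ {q : ℕ} {T : X1.Current q}, X1.IsDsh w T → X1.IsBidim T := by
    rintro q T ⟨c, hc⟩
    exact (hdsn (δ 0) (hδ 0) w q T c hc).2.1
  let KS : Bool → (p q : ℕ) → X1.Current q → ℕ → X1.Form (2 * p) := fun b p q T n =>
    if b = true then KK (δ n) p q T else 0
  have kt : ∀ p q T n, KS true p q T n = KK (δ n) p q T := fun p q T n => if_pos rfl
  have kf : ∀ p q T n, KS false p q T n = 0 := fun p q T n => if_neg (by simp)
  refine ⟨{ K := KS, smooth := ?_, bideg := ?_, conv := ?_, p1 := ?_, p2 := ?_, p3 := ?_,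
            p4 := ?_, p5 := ?_, p6 := ?_, p7 := ?_, p8 := ?_ }, fun p q T n => ⟨kt p q T n,
              kf p q T n⟩⟩
  · intro b p q hpq T hT i
    cases b
    · rw [kf]
      exact contDiffOn_const
    · rw [kt]
      refine ((hkkp (δ i) (hδ i) p q hpq T (hcont hT)).1 : ContDiffOn ℝ _ _ _).of_le ?_
      exact_mod_cast le_top
  · intro b p q hpq T hT i z hz u hu v
    cases b
    · rw [kf]
      rfl
    · rw [kt]
      exact (hkkp (δ i) (hδ i) p q hpq T (hcont hT)).2.2.1 (hbid hT) z hz u hu v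
  · intro p q hpq T hT β _
    refine (conv_T hcpt havf huni δ hδ hδ0 q T (hcont hT) β).congr fun i => ?_
    rw [kt, kf, form_sub_zero]
    exact ((hkkp (δ i) (hδ i) p q hpq T (hcont hT)).2.1 β).symm
  · intro b p q hpq T hT
    cases b
    · refine ⟨0, fun i => ⟨0, fun β => ?_, dsh_zero w q⟩⟩
      rw [kf, pair_zero hwdg]
      rfl
    · obtain ⟨c, hc⟩ := hT
      refine ⟨c, fun i => ?_⟩
      obtain ⟨S, hS⟩ := (htav (δ i) (hδ i) q T (hcont ⟨c, hc⟩)).1
      refine ⟨S, fun β => ?_, (hdsn (δ i) (hδ i) w q T c hc).2.2 S hS⟩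
      rw [kt, hS β, (hkkp (δ i) (hδ i) p q hpq T (hcont ⟨c, hc⟩)).2.1 β]
  · intro b p q hpq T hT hpos
    cases b
    · refine ⟨fun i z _ => ?_, 0, fun i => ?_⟩
      · rw [kf]
        exact fpos_zero w p
      · rw [kf, pair_zero hwdg]
    · refine ⟨fun i z hz => ?_, T (toF (X1.kpow q)), fun i => ?_⟩
      · rw [kt]
        exact (h2 (δ i) (hδ i) w p q hpq T hpos).1 z hz
      · rw [kt, (h2 (δ i) (hδ i) w p q hpq T hpos).2]
  · intro b p q hpq T hpos hcl i z hz
    cases b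
    · rw [kf]
      exact extDeriv_zeroF z
    · rw [kt]
      exact h3 (δ i) (hδ i) p q hpq T hpos.2.1 hcl z hz
  · intro b p q hpq T hT O hO hsat τ hτ
    cases b
    · refine ⟨fun _ => 0, ?_⟩
      have : (fun i => (KS false p q T i).1) = fun _ => fun _ => 0 := by
        funext i
        rw [kf]
        rfl
      rw [this]
      intro U hU x _
      exact ⟨Set.univ, Filter.univ_mem, Filter.Eventually.of_forall fun _ _ _ =>
        refl_mem_uniformity hU⟩
    · refine ⟨τ, ?_⟩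
      have : (fun i => (KS true p q T i).1) = fun i => (KK (δ i) p q T).1 := by
        funext i
        rw [kt]
      rw [this]
      exact h4 δ hδ hδ0 p q hpq T (hcont hT) O hO hsat τ hτ
  · intro b p q hpq T S hT hS i
    cases b
    · rw [kf, kf, kf, add_zero]
    · rw [kt, kt, kt]
      exact (hkkp (δ i) (hδ i) p q hpq T (hcont hT)).2.2.2.1 S (hcont hS)
  · intro p q hpq T S hT hS
    have : ∀ i, S (KS true p q T i - KS false p q T i) - T (KS true q p S i - KS false q p S i)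
        = 0 := by
      intro i
      rw [kt, kf, kt, kf, form_sub_zero, form_sub_zero, h6 (δ i) (hδ i) p q hpq T S (hcont hT) (hcont hS),
        sub_self]
    simp only [this]
    exact tendsto_const_nhds
  · intro b p q hpq T S hT hS hTS i z hz
    cases b
    · rw [kf, kf]
      exact ddc_zeroF z
    · rw [kt, kt]
      exact h7 (δ i) (hδ i) p q hpq T S (hcont hT) (hbid hT) (hcont hS) (hbid hS) hTS z hz
  · intro p q hpq A O hO hsat hAO
    obtain ⟨n₀, hn₀⟩ := h8 δ hδ hδ0 p q hpq A O hO hsat hAO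
    refine ⟨n₀, fun T hT hA i hi => ?_⟩
    rw [kt, kf, form_sub_zero]
    exact hn₀ T (hcont hT) hA i hi

end Pool.Agent.SIQ.H15
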