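import Pool.Agent.Helper7_SIQ.Cht
import Pool.Agent.Helper44_SIQ.Cpt
import Pool.Agent.Helper75_SIQ.DDS
import Pool.Agent.Helper38_SIQ.DSN
import Pool.Agent.Helper38_SIQ.TDD
import Pool.Agent.Helper18_SIQ.Eqv
import Pool.Agent.Helper4_SIQ.EXI
import Pool.Agent.Helper66_SIQ.Ext
import Pool.Agent.Helper4_SIQ.FPR
import Pool.Agent.Helper44_SIQ.Frm
import Pool.Agent.Helper75_SIQ.GSF
import Pool.Agent.Helper54_SIQ.INT
import Pool.Agent.Helper59_SIQ.INV
import Pool.Agent.Helper85_SIQ.Kkp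
import Pool.Agent.Helper59_SIQ.LEI
import Pool.Agent.Helper47_SIQ.Ndg
import Pool.Agent.Helper21_SIQ.Omg
import Pool.Agent.Helper47_SIQ.Pr3
import Pool.Agent.Helper54_SIQ.PR7
import Pool.Agent.Helper76_SIQ.PR8
import Pool.Agent.Helper50_SIQ.Qua
import Pool.Agent.Helper7_SIQ.Qum
import Pool.Agent.Helper18_SIQ.Rdc
import Pool.Agent.Helper50_SIQ.Rho
import Pool.Agent.Helper15_SIQ.SCH
import Pool.Agent.Helper15_SIQ.FIN
import Pool.Agent.Helper54_SIQ.SMG
import Pool.Agent.Helper76_SIQ.TAV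
import Pool.Agent.Helper65_SIQ.TEX
import Pool.Agent.Helper9_SIQ.TOP
import Pool.Agent.Helper98_SIQ.UNI
import Pool.Agent.Helper98_SIQ.SYM
import Pool.Agent.Helper81_SIQ.Pr6
import Pool.Agent.Helper21_SIQ.Gau
import Pool.Agent.Helper59_SIQ.PPA
import Pool.Agent.Helper66_SIQ.Stg
import Pool.Agent.Helper63_SIQ.Com
import Pool.Agent.Helper63_SIQ.Dua
import Pool.Agent.Helper69_SIQ.Kpw
import Pool.Agent.Helper69_SIQ.Ppo
import Pool.Agent.Helper26_SIQ.LIM
import Pool.Agent.Helper26_SIQ.SUP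
import Pool.Agent.Helper79_SIQ.NDR
import Pool.Agent.Helper79_SIQ.STX
import Pool.Agent.Helper21_SIQ.Prf
import Pool.Agent.Helper15_SIQ.AVF
import Pool.Agent.Helper15_SIQ.PR4
import Pool.Agent.Helper15_SIU.All

/-!
# MP_021b97_an, Q1: assembly of all modules
-/

set_option autoImplicit false

namespace Pool.Agent.SIQ.H15

open Pool.Agent.SIU Pool.Agent.SIQ

/-- Q1 of MP_021b97_an -/
theorem fin1S : Fin1Stmt := by
  have hWdg : WdgStmt := SIU.H15.wdgS
  have hBsd : BsdStmt := SIU.H15.bsdS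
  have hCom : ComStmt := H63.com
  have hDua : DuaStmt := H63.dua
  have hFrm : FrmStmt := H44.frm
  have hCpt : CptStmt := H44.cpt
  have hQua : QuaStmt := H50.qua
  have hQum : QumStmt := H7.qum hQua
  have hRho : RhoStmt := H50.rho_mod hQua hQum
  have hCht : ChtStmt := H7.cht
  have hRdc : RdcStmt := H18.rdc
  have hKpw : KpwStmt := H69.kpw hQua hRdc hWdg SIU.H15.lgbS
  have hPpa : PpaStmt := H59P.ppa hDua hCom
  have hEqv : EqvStmt := H18.eqv
  have hPpo : PpoStmt := H69.ppo hPpa hEqv hCht hCpt hWdg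
  have hLim : LimStmt := H26.lim hRho hQum
  have hSup : SupStmt := H26.sup
  have hGau : GauStmt := H21.gau
  have hPrf : PrfStmt := H21.prf hFrm hCpt hCom hGau hWdg
  have hGsf : GsfStmt := H75.gsf hQua
  have hInv : InvStmt := H59.inv hFrm hCpt hQua hQum hCom hPrf hGsf
  have hLei : LeiStmt := H59L.lei
  have hStg : StgStmt := H66g.stg hCht hGsf hInv hBsd SIU.H15.lbzS hPrf hQua
  have hStx : StxStmt := H79.stx hStg hLei hPrf hBsd hWdg
  have hDds : DdsStmt := H75.dds hStx hInv hBsd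
  have hNdg : NdgStmt := H47.ndg hCom hCht SIU.H15.wdgS hCpt
  have hNdr : NdrStmt := H79.ndr hNdg hWdg hCom
  have hExt : ExtStmt := H66.ext hFrm hCpt
  have hAvf : AvfStmt := H15A.avf hCpt hQua hQum hRho hGsf
  have hInt : IntStmt := H54.int hCpt hQua hQum hRho hGsf hAvf hExt
  have hTop : TopStmt := H9.top hQua
  have hUni : UniStmt := H98.uni hCpt hQua hRho hAvf
  have hSym : SymStmt := H98.sym hCpt hQua hQum hRho hPrf hInv hGsf hAvf SIU.H15.wdgS
  have hOmg : OmgStmt := H21.omg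
  have hSmg : SmgStmt := H54.smg hOmg
  have hExi : ExiStmt := H4E.exi hFrm hCpt hQua hQum hRho hDua hPrf hAvf hSmg hExt
  have hKkp : KkpStmt := H85.kkp hExi hNdg hInv hGsf hAvf hPrf
  have hTav : TavStmt := H76.tav hCpt hQum hRho hGsf hKpw hAvf hInt hQua
  have hTdd : TddStmt := H38.tdd hGsf hAvf hInt hRho hTav hQua
  have hDsn : DsnStmt := H38.dsn hTav hTdd
  have hPr2 : Pr2Stmt := H85.pr2 hKpw hKkp hPpo hTav hRho hQua
  have hPr4 : Pr4Stmt := H15R.pr4 hSym hUni hTop hKkp hAvf hRho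
  have hPr3 : Pr3Stmt := H47.pr3 SIU.H15.bsdS hGsf hInt hKkp hNdg hStx
  have hPr6 : Pr6Stmt := H81.pr6 hSym hUni hAvf hKkp hNdg hInv hPrf hQua hRho
  have hPr7 : Pr7Stmt := H54.pr7 H18.rdc hDds hNdr hGsf hInt hKkp SIU.H15.bsdS hQua hPrf
    SIU.H15.wdgS
  have hPr8 : Pr8Stmt := H76.pr8 hTop hSup hKkp hAvf hRho
  have hSch : SchStmt := sch SIU.H15.wdgS hCpt hAvf hUni hKkp hTav hDsn hPr2 hPr3 hPr4 hPr6 hPr7
    hPr8
  have hFpr : FprStmt := H4.fpr hQua hQum hRho hPrf hCht hKkp hAvf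
  exact fin1 hSch H65.tex H65.tlz hFpr hLim

end Pool.Agent.SIQ.H15
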