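import Pool.Agent.Helper15_SIQ.X1
import Pool.Agent.Helper15_SIU.Defs2

/-!
# MP_021b97_an, Q1: auxiliary definitions

`X = (P¹)³`; the group `(ℍ*)³`, `ℍ = ℂ²` the quaternions, acts on `U ⊂ (ℂ²)³` by left multiplication
(`qm`), this action commutes with `(ℂ*)³`.  `Av δ β` is the average of `g^* β` over `g` near `1`.
-/

set_option autoImplicit false

open MeasureTheory Filter Topology

namespace Pool.Agent.SIQ

open Pool.Agent.SIU

/-- homogeneous coordinates -/
abbrev E6 : Type := Fin 6 → ℂ
/-- affine coordinates, tangent spaces -/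
abbrev C3 : Type := Fin 3 → ℂ

/-- first coordinate of the block `i` -/
def lo : Fin 3 → Fin 6 := ![0, 2, 4]
/-- second coordinate of the block `i` -/
def hi : Fin 3 → Fin 6 := ![1, 3, 5]

/-- squared norm of the block `i` -/
noncomputable def nn (z : E6) (i : Fin 3) : ℝ := ‖z (lo i)‖ ^ 2 + ‖z (hi i)‖ ^ 2

/-- blockwise quaternion product `(a, b) (s, t) = (a s - b̄ t, b s + ā t)` -/
noncomputable def qm (g z : E6) : E6 :=
  ![g 0 * z 0 - (starRingEnd ℂ) (g 1) * z 1, g 1 * z 0 + (starRingEnd ℂ) (g 0) * z 1,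
    g 2 * z 2 - (starRingEnd ℂ) (g 3) * z 3, g 3 * z 2 + (starRingEnd ℂ) (g 2) * z 3,
    g 4 * z 4 - (starRingEnd ℂ) (g 5) * z 5, g 5 * z 4 + (starRingEnd ℂ) (g 4) * z 5]

/-- `qm g` as a linear map -/
noncomputable def qmL (g : E6) : E6 →L[ℂ] E6 :=
  ContinuousLinearMap.pi ![
    g 0 • ContinuousLinearMap.proj 0 - (starRingEnd ℂ) (g 1) • ContinuousLinearMap.proj 1,
    g 1 • ContinuousLinearMap.proj 0 + (starRingEnd ℂ) (g 0) • ContinuousLinearMap.proj 1,
    g 2 • ContinuousLinearMap.proj 2 - (starRingEnd ℂ) (g 3) • ContinuousLinearMap.proj 3,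
    g 3 • ContinuousLinearMap.proj 2 + (starRingEnd ℂ) (g 2) • ContinuousLinearMap.proj 3,
    g 4 • ContinuousLinearMap.proj 4 - (starRingEnd ℂ) (g 5) • ContinuousLinearMap.proj 5,
    g 5 • ContinuousLinearMap.proj 4 + (starRingEnd ℂ) (g 4) • ContinuousLinearMap.proj 5]

/-- quaternion conjugation `(a, b) ↦ (ā, -b)` -/
noncomputable def cq (g : E6) : E6 :=
  ![(starRingEnd ℂ) (g 0), -g 1, (starRingEnd ℂ) (g 2), -g 3, (starRingEnd ℂ) (g 4), -g 5]

/-- the unit -/
noncomputable def one6 : E6 := ![1, 0, 1, 0, 1, 0]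

/-- real inner product of the blocks `i` -/
noncomputable def rip (h w : E6) (i : Fin 3) : ℝ :=
  (h (lo i) * (starRingEnd ℂ) (w (lo i)) + h (hi i) * (starRingEnd ℂ) (w (hi i))).re

/-- the frame: `fE z c = ∑ i, c i • e_i(z)`, `e_i(z) = (- conj z_{2i+1}, conj z_{2i})` in block `i` -/
noncomputable def fE (z : E6) : C3 →L[ℂ] E6 :=
  ContinuousLinearMap.pi ![
    (-(starRingEnd ℂ) (z 1)) • ContinuousLinearMap.proj 0,
    ((starRingEnd ℂ) (z 0)) • ContinuousLinearMap.proj 0,
    (-(starRingEnd ℂ) (z 3)) • ContinuousLinearMap.proj 1,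
    ((starRingEnd ℂ) (z 2)) • ContinuousLinearMap.proj 1,
    (-(starRingEnd ℂ) (z 5)) • ContinuousLinearMap.proj 2,
    ((starRingEnd ℂ) (z 4)) • ContinuousLinearMap.proj 2]

/-- the coframe -/
noncomputable def fl (z : E6) : E6 →L[ℂ] C3 :=
  ContinuousLinearMap.pi ![
    ((nn z 0 : ℂ)⁻¹) • (z 0 • ContinuousLinearMap.proj 1 - z 1 • ContinuousLinearMap.proj 0),
    ((nn z 1 : ℂ)⁻¹) • (z 2 • ContinuousLinearMap.proj 3 - z 3 • ContinuousLinearMap.proj 2),
    ((nn z 2 : ℂ)⁻¹) • (z 4 • ContinuousLinearMap.proj 5 - z 5 • ContinuousLinearMap.proj 4)]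

/-- diagonal linear maps of `ℂ³` -/
noncomputable def rot3 (c : C3) : C3 →L[ℂ] C3 :=
  ContinuousLinearMap.pi fun i => c i • ContinuousLinearMap.proj i

/-- the components of a form in the frame -/
noncomputable def cmp {k : ℕ} (β : E6 → Alt 6 k) (z : E6) : Alt 3 k :=
  (β z).compContinuousLinearMap ((fE z).restrictScalars ℝ)

open Classical in
/-- the form with given components -/
noncomputable def ofc {k : ℕ} (Ψ : E6 → Alt 3 k) (z : E6) : Alt 6 k :=
  if z ∈ X1.U then (Ψ z).compContinuousLinearMap ((fl z).restrictScalars ℝ) else 0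

/-- equivariance of the components -/
def Eqv {k : ℕ} (Ψ : E6 → Alt 3 k) : Prop :=
  ∀ z ∈ X1.U, ∀ c : C3, (∀ j, c j ≠ 0) → Ψ (X1.act c z) =
    (Ψ z).compContinuousLinearMap ((rot3 fun j => (starRingEnd ℂ) (c j) / c j).restrictScalars ℝ)

/-- pull-back of a form by `qm g` -/
noncomputable def gs {k : ℕ} (g : E6) (β : E6 → Alt 6 k) (z : E6) : Alt 6 k :=
  (β (qm g z)).compContinuousLinearMap ((qmL g).restrictScalars ℝ)

/-- pointwise rotation of the vectors -/
noncomputable def rotF {k : ℕ} (u : ℂ) (β : E6 → Alt 6 k) (z : E6) : Alt 6 k :=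
  (β z).compContinuousLinearMap (mulC 6 u)

/-- bidegree `(p, p)` -/
def RotInv {k : ℕ} (β : E6 → Alt 6 k) : Prop :=
  ∀ z ∈ X1.U, ∀ u : ℂ, ‖u‖ = 1 → ∀ v, β z (fun j => u • v j) = β z v

/-- saturated sets -/
def Sat (O : Set E6) : Prop := ∀ y ∈ O, ∀ c : C3, (∀ j, c j ≠ 0) → X1.act c y ∈ O

/-- the bump function: `0` for `t ≤ 1 - δ`, `1` for `t ≥ 1` -/
noncomputable def th (δ t : ℝ) : ℝ := Real.smoothTransition ((t - (1 - δ)) / δ)

/-- admissible parameters -/
def Ad (δ : Fin 3 → ℝ) : Prop := ∀ i, 0 < δ i ∧ δ i < 1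

/-- the weight on the group -/
noncomputable def rho (δ : Fin 3 → ℝ) (g : E6) : ℝ :=
  ∏ i, th (δ i) ((g (lo i)).re / √(nn g i)) * Real.exp (-nn g i)

/-- its integral -/
noncomputable def Zc (δ : Fin 3 → ℝ) : ℝ := ∫ g : E6, rho δ g

/-- the average of `g^* β` -/
noncomputable def Av {k : ℕ} (δ : Fin 3 → ℝ) (β : E6 → Alt 6 k) (z : E6) : Alt 6 k :=
  (Zc δ)⁻¹ • ∫ g : E6, rho δ g • gs g β z

/-- the unit sphere bundle -/
def M1 : Set E6 := {z | ∀ i, nn z i = 1}

/-- normalisation of the blocks -/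
noncomputable def nz (z : E6) : E6 := X1.act (fun i => (((√(nn z i))⁻¹ : ℝ) : ℂ)) z

/-- the kernel (functions) -/
noncomputable def Gk (δ : Fin 3 → ℝ) (h w : E6) : ℝ := ∏ i, th (δ i) (rip h w i / √(nn h i))

/-- integrand of the pairing in terms of components -/
noncomputable def prw {k l : ℕ} (a : E6 → Alt 6 k) (b : E6 → Alt 6 l) (z : E6) : ℝ :=
  wedge (cmp a z) (cmp b z) (stdb 3 (k + l))

open Classical in
/-- the continuous form on `X` given by a field of forms on `U` (`0` if this makes no sense) -/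
noncomputable def toF {k : ℕ} (ω : E6 → Alt 6 k) : X1.Form k :=
  if h : (fun z => if z ∈ X1.U then ω z else 0) ∈ X1.Form k then ⟨_, h⟩ else 0

/-- `S = T ∘ Av δ` -/
def AvT {q : ℕ} (δ : Fin 3 → ℝ) (T S : X1.Current q) : Prop :=
  ∀ β : X1.Form (2 * q), S β = T (toF (Av δ β.1))

open Classical in
/-- the approximation of the current `T`: the smooth form which represents `T ∘ Av δ` -/
noncomputable def KK (δ : Fin 3 → ℝ) (p q : ℕ) (T : X1.Current q) : X1.Form (2 * p) :=
  if h : p + q = 3 ∧ X1.IsCont T ∧ ∃ K : X1.Form (2 * p), X1.Smooth K.1 ∧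
    ∀ β : X1.Form (2 * q), X1.pair K.1 β.1 = T (toF (Av δ β.1)) then Classical.choose h.2.2 else 0

/-! ### volume form of `ℂ³` -/

/-- real coordinates -/
noncomputable def r6 : C3 →ₗ[ℝ] (Fin 6 → ℝ) where
  toFun c i := ![(c 0).re, (c 0).im, (c 1).re, (c 1).im, (c 2).re, (c 2).im] i
  map_add' a b := by funext i; fin_cases i <;> simp
  map_smul' t a := by funext i; fin_cases i <;> simp

theorem continuous_r6 : Continuous (fun c : C3 => r6 c) := by
  refine continuous_pi fun i => ?_
  fin_cases i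
  · exact Complex.continuous_re.comp (continuous_apply 0)
  · exact Complex.continuous_im.comp (continuous_apply 0)
  · exact Complex.continuous_re.comp (continuous_apply 1)
  · exact Complex.continuous_im.comp (continuous_apply 1)
  · exact Complex.continuous_re.comp (continuous_apply 2)
  · exact Complex.continuous_im.comp (continuous_apply 2)

/-- the volume form, as an alternating map -/
noncomputable def vola : C3 [⋀^Fin 6]→ₗ[ℝ] ℝ :=
  (Matrix.detRowAlternating (n := Fin 6) (R := ℝ)).compLinearMap r6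

theorem vola_aux {n : ℕ} (L : C3 →ₗ[ℝ] (Fin n → ℝ)) (v : Fin n → C3) :
    (Matrix.detRowAlternating (n := Fin n) (R := ℝ)).compLinearMap L v =
      Matrix.det (Matrix.of fun i => L (v i)) := rfl

theorem vola_apply (v : Fin 6 → C3) : vola v = Matrix.det (Matrix.of fun i => r6 (v i)) :=
  vola_aux r6 v

theorem continuous_vola : Continuous (fun v : Fin 6 → C3 => vola v) := by
  simp only [vola_apply]
  apply Continuous.matrix_det
  refine continuous_matrix fun i j => ?_
  exact (continuous_apply j).comp (continuous_r6.comp (continuous_apply i))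

/-- continuous alternating maps from alternating maps -/
noncomputable def mkC {k : ℕ} (f : C3 [⋀^Fin k]→ₗ[ℝ] ℝ)
    (hf : Continuous fun v : Fin k → C3 => f v) : Alt 3 k :=
  { f with cont := hf }

theorem mkC_apply {k : ℕ} (f : C3 [⋀^Fin k]→ₗ[ℝ] ℝ)
    (hf : Continuous fun v : Fin k → C3 => f v) (v : Fin k → C3) : mkC f hf v = f v := rfl

/-- the volume form -/
noncomputable def vol3 : Alt 3 6 := mkC vola continuous_vola

theorem vol3_apply (v : Fin 6 → C3) : vol3 v = Matrix.det (Matrix.of fun i => r6 (v i)) :=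
  (mkC_apply vola continuous_vola v).trans (vola_apply v)

/-- the tuple `(v, u)` -/
def app6 {k l : ℕ} (h : k + l = 6) (v : Fin k → C3) (u : Fin l → C3) : Fin 6 → C3 :=
  fun i => Fin.append v u (Fin.cast h.symm i)

theorem app6_update {k l : ℕ} (h : k + l = 6) (v : Fin k → C3) [DecidableEq (Fin l)]
    (u : Fin l → C3) (i : Fin l) (x : C3) :
    app6 h v (Function.update u i x) =
      Function.update (app6 h v u) (Fin.cast h (Fin.natAdd k i)) x := by
  funext j
  unfold app6
  obtain ⟨j', rfl⟩ : ∃ j', j = Fin.cast h j' := ⟨Fin.cast h.symm j, by simp⟩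
  rw [show Fin.cast h.symm (Fin.cast h j') = j' by simp]
  refine Fin.addCases (fun a => ?_) (fun a => ?_) j'
  · rw [Fin.append_left, Function.update_of_ne, show Fin.cast h.symm (Fin.cast h (Fin.castAdd l a)) =
      Fin.castAdd l a by simp, Fin.append_left]
    intro hh
    have := congrArg Fin.val hh
    simp at this
    omega
  · by_cases hai : a = i
    · subst hai
      simp [Fin.append_right]
    · rw [Fin.append_right, Function.update_of_ne hai, Function.update_of_ne,
        show Fin.cast h.symm (Fin.cast h (Fin.natAdd k a)) = Fin.natAdd k a by simp,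
        Fin.append_right]
      intro hh
      apply hai
      have := congrArg Fin.val hh
      simp at this
      exact Fin.ext this

/-- `ι_v vol` : the form `u ↦ vol (v, u)` -/
noncomputable def iv {k l : ℕ} (h : k + l = 6) (v : Fin k → C3) : Alt 3 l where
  toFun u := vol3 (app6 h v u)
  map_update_add' := by
    intro _ u i x y
    rw [app6_update, app6_update, app6_update, vol3.map_update_add]
  map_update_smul' := by
    intro _ u i c x
    rw [app6_update, app6_update, vol3.map_update_smul]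
  map_eq_zero_of_eq' := by
    intro u i j hij hne
    apply vol3.map_eq_zero_of_eq (i := Fin.cast h (Fin.natAdd k i))
      (j := Fin.cast h (Fin.natAdd k j))
    · unfold app6
      rw [show Fin.cast h.symm (Fin.cast h (Fin.natAdd k i)) = Fin.natAdd k i by simp,
        show Fin.cast h.symm (Fin.cast h (Fin.natAdd k j)) = Fin.natAdd k j by simp,
        Fin.append_right, Fin.append_right]
      exact hij
    · intro hh
      apply hne
      have := congrArg Fin.val hh
      simp at this
      exact Fin.ext this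
  cont := by
    refine vol3.cont.comp ?_
    refine continuous_pi fun i => ?_
    show Continuous fun u : Fin l → C3 => Fin.append v u (Fin.cast h.symm i)
    generalize Fin.cast h.symm i = j'
    refine Fin.addCases (fun a => ?_) (fun a => ?_) j'
    · simp only [Fin.append_left]
      exact continuous_const
    · simp only [Fin.append_right]
      exact continuous_apply a

theorem iv_apply {k l : ℕ} (h : k + l = 6) (v : Fin k → C3) (u : Fin l → C3) :
    iv h v u = vol3 (app6 h v u) := rfl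

/-! ### the chart -/

/-- the affine coordinates -/
noncomputable def chp (z : E6) : C3 := fun i => z (lo i) / z (hi i)

open Classical in
/-- the form on `X` given by a compactly supported form on `ℂ³` -/
noncomputable def chf {l : ℕ} (γ : C3 → Alt 3 l) (z : E6) : Alt 6 l :=
  if ∀ i, z (hi i) ≠ 0 then (γ (chp z)).compContinuousLinearMap (fderiv ℝ chp z) else 0

/-! ### the current -/

/-- the points of the segment -/
noncomputable def pt1 (t : ℝ) : E6 := ![0, 1, 0, 1, (t : ℂ), 1]

/-- `T = δ_0 ⊗ δ_0 ⊗ (Lebesgue measure on [0, 1])` -/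
def IsT1 (T : X1.Current 0) : Prop :=
  ∀ β : X1.Form (2 * 0), T β = ∫ t in Set.Icc (0 : ℝ) 1, β.1 (pt1 t) (fun _ => 0)

/-- the test function `|z 3|² / (|z 2|² + |z 3|²)` as a form of degree `0` -/
noncomputable def be2 (z : E6) : Alt 6 (2 * 0) := cst 6 (‖z 3‖ ^ 2 / nn z 1)

/-- the limit integral -/
noncomputable def Wl (δ : Fin 3 → ℝ) : ℝ :=
  (Zc δ)⁻¹ * ∫ g : E6, rho δ g *
    ((‖g 1‖ * ‖g 2‖) ^ 2 / ((‖g 1‖ * ‖g 2‖) ^ 2 + (‖g 0‖ * ‖g 3‖) ^ 2))

end Pool.Agent.SIQ
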