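import Pool.Agent.Helper15_SIQ.Base

/-!
# MP_021b97_an, Q1: basic facts (library for all modules)
-/

set_option autoImplicit false

open MeasureTheory Filter Topology

namespace Pool.Agent.SIQ

open Pool.Agent.SIU

/-! ### blocks -/

theorem lo0 : lo 0 = 0 := rfl
theorem lo1 : lo 1 = 2 := rfl
theorem lo2 : lo 2 = 4 := rfl
theorem hi0 : hi 0 = 1 := rfl
theorem hi1 : hi 1 = 3 := rfl
theorem hi2 : hi 2 = 5 := rfl

theorem blocks (m : Fin 6) : ∃ i, m = lo i ∨ m = hi i := by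
  fin_cases m
  · exact ⟨0, Or.inl rfl⟩
  · exact ⟨0, Or.inr rfl⟩
  · exact ⟨1, Or.inl rfl⟩
  · exact ⟨1, Or.inr rfl⟩
  · exact ⟨2, Or.inl rfl⟩
  · exact ⟨2, Or.inr rfl⟩

theorem ext6 {z w : E6} (h0 : ∀ i, z (lo i) = w (lo i)) (h1 : ∀ i, z (hi i) = w (hi i)) :
    z = w := by
  funext m
  obtain ⟨i, rfl | rfl⟩ := blocks m
  · exact h0 i
  · exact h1 i

theorem blk_lo (i : Fin 3) : X1.blk (lo i) = i := by fin_cases i <;> rfl
theorem blk_hi (i : Fin 3) : X1.blk (hi i) = i := by fin_cases i <;> rfl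

theorem nn_nonneg (z : E6) (i : Fin 3) : 0 ≤ nn z i := by unfold nn; positivity

theorem nn_eq_zero (z : E6) (i : Fin 3) : nn z i = 0 ↔ z (lo i) = 0 ∧ z (hi i) = 0 := by
  unfold nn
  constructor
  · intro h
    have h1 := sq_nonneg ‖z (lo i)‖
    have h2 := sq_nonneg ‖z (hi i)‖
    constructor
    · have : ‖z (lo i)‖ ^ 2 = 0 := by linarith
      exact norm_eq_zero.mp (pow_eq_zero_iff (two_ne_zero) |>.mp this)
    · have : ‖z (hi i)‖ ^ 2 = 0 := by linarith
      exact norm_eq_zero.mp (pow_eq_zero_iff (two_ne_zero) |>.mp this)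
  · rintro ⟨h1, h2⟩
    rw [h1, h2]
    simp

theorem mem_U1 (z : E6) : z ∈ X1.U ↔ ∀ i, z (lo i) ≠ 0 ∨ z (hi i) ≠ 0 := by
  constructor
  · intro h i
    obtain ⟨m, hm, hz⟩ := h i
    obtain ⟨j, rfl | rfl⟩ := blocks m
    · rw [blk_lo] at hm; subst hm; exact Or.inl hz
    · rw [blk_hi] at hm; subst hm; exact Or.inr hz
  · intro h i
    rcases h i with h | h
    · exact ⟨lo i, blk_lo i, h⟩
    · exact ⟨hi i, blk_hi i, h⟩

theorem mem_U1' (z : E6) : z ∈ X1.U ↔ ∀ i, 0 < nn z i := by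
  rw [mem_U1]
  constructor
  · intro h i
    rcases (nn_nonneg z i).lt_or_eq with h' | h'
    · exact h'
    · have := (nn_eq_zero z i).mp h'.symm
      rcases h i with h2 | h2
      · exact absurd this.1 h2
      · exact absurd this.2 h2
  · intro h i
    by_contra hc
    push Not at hc
    exact (h i).ne' ((nn_eq_zero z i).mpr hc)

theorem continuous_nn (i : Fin 3) : Continuous (fun z : E6 => nn z i) := by
  unfold nn
  fun_prop

theorem isOpen_U1 : IsOpen X1.U := by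
  have h : X1.U = ⋂ i, {z : E6 | 0 < nn z i} := by
    ext z
    rw [mem_U1', Set.mem_iInter]
    rfl
  rw [h]
  exact isOpen_iInter_of_finite fun i => isOpen_lt continuous_const (continuous_nn i)

/-! ### the action -/

theorem act1_eq (c : C3) (z : E6) : X1.act c z =
    ![c 0 * z 0, c 0 * z 1, c 1 * z 2, c 1 * z 3, c 2 * z 4, c 2 * z 5] := by
  funext m
  fin_cases m <;> simp [Toric.act, X1, Fin.prod_univ_three]

theorem act1_lo (c : C3) (z : E6) (i : Fin 3) : X1.act c z (lo i) = c i * z (lo i) := by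
  rw [act1_eq]
  fin_cases i <;> rfl

theorem act1_hi (c : C3) (z : E6) (i : Fin 3) : X1.act c z (hi i) = c i * z (hi i) := by
  rw [act1_eq]
  fin_cases i <;> rfl

/-- the action of `c` as a linear map -/
noncomputable def actL1 (c : C3) : E6 →L[ℂ] E6 :=
  ContinuousLinearMap.pi fun m => (∏ j, c j ^ X1.wt m j) • ContinuousLinearMap.proj m

theorem actL1_apply (c : C3) (z : E6) : actL1 c z = X1.act c z := rfl

theorem nn_act (c : C3) (z : E6) (i : Fin 3) : nn (X1.act c z) i = ‖c i‖ ^ 2 * nn z i := by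
  unfold nn
  rw [act1_lo, act1_hi, norm_mul, norm_mul]
  ring

theorem act1_mem_U {c : C3} (hc : ∀ j, c j ≠ 0) (z : E6) : X1.act c z ∈ X1.U ↔ z ∈ X1.U := by
  rw [mem_U1, mem_U1]
  simp [act1_lo, act1_hi, hc]

theorem act1_act (c d : C3) (z : E6) : X1.act c (X1.act d z) = X1.act (fun i => c i * d i) z := by
  apply ext6 <;> intro i <;> simp [act1_lo, act1_hi, mul_assoc]

theorem act1_one (z : E6) : X1.act (fun _ => 1) z = z := by
  apply ext6 <;> intro i <;> simp [act1_lo, act1_hi]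

theorem act1_inv {c : C3} (hc : ∀ j, c j ≠ 0) (z : E6) :
    X1.act (fun j => (c j)⁻¹) (X1.act c z) = z := by
  rw [act1_act]
  have : (fun i => (c i)⁻¹ * c i) = fun _ => (1 : ℂ) := by
    funext i
    exact inv_mul_cancel₀ (hc i)
  rw [this, act1_one]

theorem vert1_iff (z v : E6) : X1.Vert z v ↔ ∃ a : C3, v = X1.act a z := by
  constructor
  · rintro ⟨a, h⟩
    refine ⟨a, ?_⟩
    funext m
    rw [h m, act1_eq]
    fin_cases m <;> simp [X1, Fin.sum_univ_three]
  · rintro ⟨a, rfl⟩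
    refine ⟨a, fun m => ?_⟩
    rw [act1_eq]
    fin_cases m <;> simp [X1, Fin.sum_univ_three]

theorem sat_U : Sat X1.U := fun y hy _ hc => (act1_mem_U hc y).mpr hy

/-! ### the chart -/

theorem sigma1_eq (x : C3) : X1.σ x = ![x 0, 1, x 1, 1, x 2, 1] := by
  funext m
  fin_cases m <;> simp [Toric.σ, X1, Fin.sum_univ_three]

theorem sigma1_lo (x : C3) (i : Fin 3) : X1.σ x (lo i) = x i := by
  rw [sigma1_eq]
  fin_cases i <;> rfl

theorem sigma1_hi (x : C3) (i : Fin 3) : X1.σ x (hi i) = 1 := by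
  rw [sigma1_eq]
  fin_cases i <;> rfl

theorem sigma1_mem_U (x : C3) : X1.σ x ∈ X1.U := by
  rw [mem_U1]
  intro i
  right
  rw [sigma1_hi]
  exact one_ne_zero

theorem nn_sigma (x : C3) (i : Fin 3) : nn (X1.σ x) i = 1 + ‖x i‖ ^ 2 := by
  unfold nn
  rw [sigma1_lo, sigma1_hi, norm_one]
  ring

/-- derivative of the chart -/
noncomputable def inc1 : C3 →L[ℂ] E6 :=
  ContinuousLinearMap.pi ![ContinuousLinearMap.proj 0, 0, ContinuousLinearMap.proj 1, 0,
    ContinuousLinearMap.proj 2, 0]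

theorem inc1_eq (w : C3) : inc1 w = ![w 0, 0, w 1, 0, w 2, 0] := by
  funext m
  fin_cases m <;> simp [inc1]

theorem hasFDerivAt_sigma1 (x : C3) : HasFDerivAt X1.σ (inc1.restrictScalars ℝ) x := by
  have h : X1.σ = fun x => inc1 x + ![0, 1, 0, 1, 0, 1] := by
    funext x m
    rw [inc1_eq, sigma1_eq]
    fin_cases m <;> simp
  rw [h]
  exact (inc1.restrictScalars ℝ).hasFDerivAt.add_const _

theorem fderiv_sigma1 (x : C3) : fderiv ℝ X1.σ x = inc1.restrictScalars ℝ :=
  (hasFDerivAt_sigma1 x).fderiv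

theorem pull_sigma1 {k : ℕ} (ω : E6 → Alt 6 k) (x : C3) :
    Toric.pull X1.σ ω x = (ω (X1.σ x)).compContinuousLinearMap (inc1.restrictScalars ℝ) := by
  unfold Toric.pull
  rw [fderiv_sigma1]

theorem contDiff_sigma1 : ContDiff ℝ ((⊤ : ℕ∞) : WithTop ℕ∞) X1.σ := by
  have h : X1.σ = fun x => inc1 x + ![0, 1, 0, 1, 0, 1] := by
    funext x m
    rw [inc1_eq, sigma1_eq]
    fin_cases m <;> simp
  rw [h]
  exact (inc1.restrictScalars ℝ).contDiff.add contDiff_const

/-! ### quaternions -/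

theorem qmL_apply (g z : E6) : qmL g z = qm g z := by
  funext m
  fin_cases m <;> simp [qmL, qm]

theorem qm_lo (g z : E6) (i : Fin 3) :
    qm g z (lo i) = g (lo i) * z (lo i) - (starRingEnd ℂ) (g (hi i)) * z (hi i) := by
  fin_cases i <;> rfl

theorem qm_hi (g z : E6) (i : Fin 3) :
    qm g z (hi i) = g (hi i) * z (lo i) + (starRingEnd ℂ) (g (lo i)) * z (hi i) := by
  fin_cases i <;> rfl

theorem cq_lo (g : E6) (i : Fin 3) : cq g (lo i) = (starRingEnd ℂ) (g (lo i)) := by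
  fin_cases i <;> rfl

theorem cq_hi (g : E6) (i : Fin 3) : cq g (hi i) = - g (hi i) := by
  fin_cases i <;> rfl

/-! ### frames -/

theorem fE_lo (z : E6) (c : C3) (i : Fin 3) :
    fE z c (lo i) = - (starRingEnd ℂ) (z (hi i)) * c i := by
  fin_cases i <;> simp [fE, lo, hi]

theorem fE_hi (z : E6) (c : C3) (i : Fin 3) :
    fE z c (hi i) = (starRingEnd ℂ) (z (lo i)) * c i := by
  fin_cases i <;> simp [fE, lo, hi]

theorem fl_apply (z v : E6) (i : Fin 3) :
    fl z v i = (nn z i : ℂ)⁻¹ * (z (lo i) * v (hi i) - z (hi i) * v (lo i)) := by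
  fin_cases i <;> simp [fl, lo, hi]

theorem rot3_apply (c d : C3) (i : Fin 3) : rot3 c d i = c i * d i := rfl

/-! ### the compact set `M1` -/

theorem M1_subset : M1 ⊆ X1.U := by
  intro z hz
  rw [mem_U1']
  intro i
  rw [hz i]
  exact one_pos

theorem isCompact_M1 : IsCompact M1 := by
  apply Metric.isCompact_of_isClosed_isBounded
  · have : M1 = ⋂ i, {z : E6 | nn z i = 1} := by
      ext z
      rw [Set.mem_iInter]
      rfl
    rw [this]
    exact isClosed_iInter fun i => isClosed_eq (continuous_nn i) continuous_const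
  · rw [isBounded_iff_forall_norm_le]
    refine ⟨1, fun z hz => ?_⟩
    rw [pi_norm_le_iff_of_nonneg zero_le_one]
    intro m
    obtain ⟨i, rfl | rfl⟩ := blocks m
    · have h := hz i
      unfold nn at h
      have h1 := sq_nonneg ‖z (hi i)‖
      have h2 : ‖z (lo i)‖ ^ 2 ≤ 1 := by linarith
      exact (sq_le_one_iff₀ (norm_nonneg _)).mp h2
    · have h := hz i
      unfold nn at h
      have h1 := sq_nonneg ‖z (lo i)‖
      have h2 : ‖z (hi i)‖ ^ 2 ≤ 1 := by linarith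
      exact (sq_le_one_iff₀ (norm_nonneg _)).mp h2

instance : CompactSpace M1 := isCompact_iff_compactSpace.mp isCompact_M1

theorem nz_mem {z : E6} (hz : z ∈ X1.U) : nz z ∈ M1 := by
  intro i
  unfold nz
  rw [nn_act, Complex.norm_real]
  have h := (mem_U1' z).mp hz i
  rw [Real.norm_of_nonneg (inv_nonneg.mpr (Real.sqrt_nonneg _)), inv_pow, Real.sq_sqrt h.le]
  exact inv_mul_cancel₀ h.ne'

theorem nz_coef {z : E6} (hz : z ∈ X1.U) (i : Fin 3) : (((√(nn z i))⁻¹ : ℝ) : ℂ) ≠ 0 := by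
  have h := (mem_U1' z).mp hz i
  exact_mod_cast (inv_pos.mpr (Real.sqrt_pos.mpr h)).ne'

theorem nz_of_M1 {z : E6} (hz : z ∈ M1) : nz z = z := by
  unfold nz
  have : (fun i => (((√(nn z i))⁻¹ : ℝ) : ℂ)) = fun _ => (1 : ℂ) := by
    funext i
    rw [hz i]
    simp
  rw [this, act1_one]

/-! ### the bump function -/

theorem th_nonneg (δ t : ℝ) : 0 ≤ th δ t := Real.smoothTransition.nonneg _
theorem th_le_one (δ t : ℝ) : th δ t ≤ 1 := Real.smoothTransition.le_one _

theorem th_zero {δ t : ℝ} (hδ : 0 < δ) (ht : t ≤ 1 - δ) : th δ t = 0 :=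
  Real.smoothTransition.zero_of_nonpos (div_nonpos_of_nonpos_of_nonneg (by linarith) hδ.le)

theorem th_pos {δ t : ℝ} (hδ : 0 < δ) (ht : 1 - δ < t) : 0 < th δ t :=
  Real.smoothTransition.pos_of_pos (div_pos (by linarith) hδ)

theorem th_lt {δ t : ℝ} (hδ : 0 < δ) (h : th δ t ≠ 0) : 1 - δ < t := by
  by_contra hc
  exact h (th_zero hδ (not_lt.mp hc))

theorem contDiff_th (δ : ℝ) : ContDiff ℝ ((⊤ : ℕ∞) : WithTop ℕ∞) (th δ) := by
  unfold th
  exact Real.smoothTransition.contDiff.comp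
    ((contDiff_id.sub contDiff_const).div_const _)

/-! ### forms -/

theorem toF_mem {k : ℕ} {ω : E6 → Alt 6 k} (hc : ContinuousOn ω X1.U) (hb : X1.BasicOn X1.U ω) :
    (by classical exact (fun z => if z ∈ X1.U then ω z else 0)) ∈ X1.Form k := by
  classical
  refine ⟨hc.congr fun z hz => if_pos hz, ⟨fun z hz c hcc v => ?_, fun z hz v i hv => ?_⟩,
    fun z hz => if_neg hz⟩
  · show (if X1.act c z ∈ X1.U then ω (X1.act c z) else 0) (fun i => X1.act c (v i)) =
      (if z ∈ X1.U then ω z else 0) v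
    rw [if_pos hz, if_pos ((act1_mem_U hcc z).mpr hz)]
    exact hb.1 z hz c hcc v
  · show (if z ∈ X1.U then ω z else 0) v = 0
    rw [if_pos hz]
    exact hb.2 z hz v i hv

theorem toF_apply {k : ℕ} {ω : E6 → Alt 6 k} (hc : ContinuousOn ω X1.U)
    (hb : X1.BasicOn X1.U ω) {z : E6} (hz : z ∈ X1.U) : (toF ω).1 z = ω z := by
  classical
  have h := toF_mem hc hb
  unfold toF
  rw [dif_pos (by convert h)]
  exact if_pos hz

theorem form_ext {k : ℕ} {β β' : X1.Form k} (h : ∀ z ∈ X1.U, β.1 z = β'.1 z) : β = β' := by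
  apply Subtype.ext
  funext z
  by_cases hz : z ∈ X1.U
  · exact h z hz
  · rw [β.2.2.2 z hz, β'.2.2.2 z hz]

theorem toF_form {k : ℕ} (β : X1.Form k) : toF β.1 = β :=
  form_ext fun _ hz => toF_apply β.2.1 β.2.2.1 hz

end Pool.Agent.SIQ
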