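import Pool.Agent.Helper15_SIU.Defs

/-!
# MP_021b97_an, Q1: the example `X = (P¹)³`, `f(x, y, z) = (x, x y, z)`
-/

set_option autoImplicit false

open MeasureTheory Filter Topology

namespace Pool.Agent.SIU

/-- `(P¹)³`, homogeneous coordinates `(z 0 : z 1)`, `(z 2 : z 3)`, `(z 4 : z 5)`; the affine chart is
`(x 0, x 1, x 2) ↦ (x 0 : 1), (x 1 : 1), (x 2 : 1)` -/
noncomputable def X1 : Toric 6 3 3 where
  wt := ![![1, 0, 0], ![1, 0, 0], ![0, 1, 0], ![0, 1, 0], ![0, 0, 1], ![0, 0, 1]]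
  blk := ![0, 0, 1, 1, 2, 2]
  one := ![1, 3, 5]
  crd := ![0, 2, 4]
  A := ![fun z => ‖z 0‖ ^ 2 + ‖z 1‖ ^ 2, fun z => ‖z 2‖ ^ 2 + ‖z 3‖ ^ 2,
    fun z => ‖z 4‖ ^ 2 + ‖z 5‖ ^ 2]

/-- the lift of the birational map `(x, y, z) ↦ (x, x y, z)` over the affine chart -/
noncomputable def f1L (x : Fin 3 → ℂ) : Fin 6 → ℂ := ![x 0, 1, x 0 * x 1, 1, x 2, 1]

end Pool.Agent.SIU
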